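import Pool.Agent.Y760.RT.Main
import Pool.Agent.TH507.ZS.Inst

/-!
# Project RT: Dirichlet series with rational coefficients (helper760)
-/

set_option autoImplicit false

namespace Pool.Agent.Y760.RT

open Filter Topology Pool.Agent.TH507.ZS

/-- the tail condition for Dirichlet series with polynomially bounded coefficients -/
lemma tail_dser {g : ℕ → ℚ} {A : ℕ} (hg : ∀ k, 1 ≤ k → |(g k : ℝ)| ≤ A * (k : ℝ) ^ A) :
    Tail (fun k => (g k : ℝ)) (dser g) := by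
  intro M
  refine ⟨A * (((M : ℝ) + 1) ^ (A + 2)) * Z2, ?_⟩
  filter_upwards [eventually_ge_atTop (A + 2)] with n hn
  have h1 := Pool.Agent.TH507.ZS.tail hg (K := M + 1) (n := n) (by omega) hn
  rw [show Finset.Ico 1 (M + 1) = Finset.Icc 1 M by
    ext i
    rw [Finset.mem_Ico, Finset.mem_Icc]
    omega] at h1
  refine h1.trans (le_of_eq ?_)
  push_cast
  ring

lemma Tail.mul {c α : ℕ → ℝ} (h : Tail c α) (β : ℝ) :
    Tail (fun k => β * c k) (fun n => β * α n) := by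
  intro M
  obtain ⟨A, hA⟩ := h M
  refine ⟨|β| * A, ?_⟩
  filter_upwards [hA] with k hk
  have h1 : β * α k - ∑ j ∈ Finset.Icc 1 M, β * c j / (j : ℝ) ^ k =
      β * (α k - ∑ j ∈ Finset.Icc 1 M, c j / (j : ℝ) ^ k) := by
    rw [mul_sub, Finset.mul_sum]
    congr 1
    exact Finset.sum_congr rfl fun j _ => mul_div_assoc _ _ _
  rw [h1, abs_mul, mul_div_assoc]
  exact mul_le_mul_of_nonneg_left hk (abs_nonneg β)

/-- rational coefficients are algebraic -/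
lemma alg_rat (x : ℚ) : IsAlgebraic ℚ (x : ℝ) := isAlgebraic_algebraMap x

/-- Roth's theorem for Dirichlet series with rational coefficients -/
theorem mainQ {g : ℕ → ℚ} {A : ℕ} (hg : ∀ k, 1 ≤ k → |(g k : ℝ)| ≤ A * (k : ℝ) ^ A)
    (H : ∀ h : ℕ, 2 ≤ h → ∃ k, 2 ≤ k ∧ k ≤ h ^ 2 ∧ Nat.Coprime h k ∧ g k ≠ 0)
    (β : ℝ) (hβ : IsAlgebraic ℚ β) (hβ0 : β ≠ 0)
    (C B : ℝ) (hB : 1 < B) : ∃ n0 : ℕ, ∀ n : ℕ, n0 ≤ n → ∀ p q : ℤ, 1 ≤ q → (q : ℝ) ≤ C ^ n →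
      (p : ℝ) / q ≠ β * g 1 → 1 / ((q : ℝ) ^ 2 * B ^ n) < |β * dser g n - p / q| :=
  mainT (fun k => β * (g k : ℝ)) (fun k => hβ.mul (alg_rat _)) (fun n => β * dser g n)
    ((tail_dser hg).mul β) 1 le_rfl
    (fun k h1 h2 => by omega) (Or.inr fun h h1 h2 => by
      obtain ⟨k, hk2, hk, hc, hgk⟩ := H h (by omega)
      refine ⟨k, hk2, ?_, hc, mul_ne_zero hβ0 (by exact_mod_cast hgk)⟩
      rw [max_eq_left h1]
      nlinarith only [hk]) C B hB

/-- a prime not dividing `h`, at most `h ^ 2` -/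
lemma exists_prime_coprime {h : ℕ} (hh : 2 ≤ h) :
    ∃ k, 2 ≤ k ∧ k ≤ h ^ 2 ∧ Nat.Coprime h k ∧ k.Prime := by
  have h1 : h + 1 ≠ 1 := by omega
  refine ⟨(h + 1).minFac, (Nat.minFac_prime h1).two_le, ?_, ?_, Nat.minFac_prime h1⟩
  · refine (Nat.minFac_le (by omega)).trans ?_
    nlinarith only [hh]
  · refine Nat.Coprime.coprime_dvd_right (Nat.minFac_dvd _) ?_
    simp

end Pool.Agent.Y760.RT
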