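import Pool.Agent.Y760.RT.Se

/-!
# Project RT: sizes of the germs (helper760)
-/

set_option autoImplicit false

namespace Pool.Agent.Y760.RT

open Filter Topology Pool.Agent.TH932.Abs Pool.Agent.TH932.Germs Pool.Agent.TH932.Chi
open Pool.Agent.TH796.AL Pool.Agent.TH147.AL Pool.Agent.Y760.ZG Pool.Agent.TH932.Scale

lemma gr_sum {ι : Type*} (s : Finset ι) (f : ι → ℕ → ℝ) :
    ∑ i ∈ s, gr (f i) = gr fun t => ∑ i ∈ s, f i t := by
  classical
  induction s using Finset.induction_on with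
  | empty =>
    simp only [Finset.sum_empty]
    exact gr_zero.symm
  | insert i s hi ih =>
    rw [Finset.sum_insert hi, ih, gr_add]
    congr 1
    funext t
    rw [Finset.sum_insert hi]

variable {n : ℕ → ℕ}

lemma term_eq (c : ℝ) (k : ℕ) :
    algebraMap ℝ HR c * rho (kg n k) = gr fun t => c / (k : ℝ) ^ n t := by
  unfold kg
  rw [cst_eq, rho_gm, gr_mul]
  congr 1
  funext t
  push_cast
  rw [div_eq_mul_inv]

/-- the truncated series -/
noncomputable def tr (n : ℕ → ℕ) (c : ℕ → ℝ) (M : ℕ) : HR :=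
  ∑ k ∈ Finset.Icc 1 M, algebraMap ℝ HR (c k) * rho (kg n k)

lemma tr_eq (c : ℕ → ℝ) (M : ℕ) :
    tr n c M = gr fun t => ∑ k ∈ Finset.Icc 1 M, c k / (k : ℝ) ^ n t := by
  unfold tr
  rw [← gr_sum]
  exact Finset.sum_congr rfl fun k _ => term_eq _ _

/-- constants are at most exponentials -/
lemma const_le (hn : ∀ t, t ≤ n t) (A : ℝ) {ε : ℝ} (hε : 0 < ε) :
    ∀ᶠ t in (UU : Filter ℕ), A ≤ Real.exp (ε * Ln n t) := by
  refine ev_of_atTop ?_
  have h1 : Tendsto (fun t => Real.exp (ε * Ln n t)) atTop atTop :=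
    Real.tendsto_exp_atTop.comp ((tLn hn).const_mul_atTop hε)
  exact h1.eventually_ge_atTop A

lemma ev_of_tail (hn : ∀ t, t ≤ n t) {P : ℕ → Prop} (h : ∀ᶠ k in atTop, P k) :
    ∀ᶠ t in (UU : Filter ℕ), P (n t) := by
  refine ev_of_atTop ?_
  exact (tendsto_atTop_mono hn tendsto_id).eventually h

lemma tail_mem (hn : ∀ t, t ≤ n t) (c : ℕ → ℝ) (α : ℕ → ℝ) (M : ℕ) {A : ℝ}
    (hA : ∀ᶠ k : ℕ in atTop, |α k - ∑ j ∈ Finset.Icc 1 M, c j / (j : ℝ) ^ k| ≤
      A / ((M : ℝ) + 1) ^ k) :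
    gr (fun t => α (n t)) - tr n c M ∈ SR (Ln n) (Real.log ((M : ℝ) + 1)) := by
  rw [tr_eq, gr_sub, mem_SR]
  intro ε hε
  filter_upwards [ev_of_tail hn hA, const_le hn A hε] with t h1 h2
  refine h1.trans ?_
  have h3 : (0 : ℝ) < (M : ℝ) + 1 := by positivity
  have h4 : Real.exp (-(Real.log ((M : ℝ) + 1) - ε) * Ln n t) =
      Real.exp (ε * Ln n t) / ((M : ℝ) + 1) ^ n t := by
    rw [show -(Real.log ((M : ℝ) + 1) - ε) * Ln n t =
      ε * Ln n t - (n t : ℝ) * Real.log ((M : ℝ) + 1) by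
        unfold Ln
        ring, Real.exp_sub, ← Real.log_pow, Real.exp_log (pow_pos h3 _)]
  rw [h4]
  exact div_le_div_of_nonneg_right h2 (pow_pos h3 _).le

lemma near_le {L : ℕ → ℝ} {f : ℕ → ℝ} {s : ℝ} (hf : ∀ t, 0 < f t)
    (h : near L (fun t => Real.log (f t)) s) {ε : ℝ} (hε : 0 < ε) :
    ∀ᶠ t in (UU : Filter ℕ), f t ≤ Real.exp ((s + ε) * L t) ∧
      Real.exp ((s - ε) * L t) ≤ f t := by
  filter_upwards [h ε hε] with t h1
  rw [abs_le] at h1
  constructor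
  · rw [← Real.exp_log (hf t)]
    refine Real.exp_le_exp.2 ?_
    linarith only [h1.2]
  · rw [← Real.exp_log (hf t)]
    refine Real.exp_le_exp.2 ?_
    linarith only [h1.1]

/-- the size of the denominators -/
lemma q_mem {L : ℕ → ℝ} {q : ℕ → ℤ} {s : ℝ} (hq : ∀ t, 1 ≤ q t)
    (h : near L (fun t => Real.log (q t)) s) : rho (gm fun t => (q t : ℚ)) ∈ SR L (-s) := by
  have hq0 : ∀ t, (0 : ℝ) < q t := fun t => by
    have h1 := hq t
    exact_mod_cast (by omega : 0 < q t)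
  rw [rho_gm, mem_SR]
  intro ε hε
  filter_upwards [near_le hq0 h hε] with t h1
  push_cast
  rw [abs_of_pos (hq0 t)]
  refine h1.1.trans (le_of_eq ?_)
  congr 1
  ring

/-- the approximation -/
lemma app_mem {p q : ℕ → ℤ} {s B : ℝ} (hB : 1 < B) (hq : ∀ t, 1 ≤ q t)
    (h : near (Ln n) (fun t => Real.log (q t)) s) {x : ℕ → ℝ}
    (hx : ∀ t, |x t - p t / q t| ≤ 1 / ((q t : ℝ) ^ 2 * B ^ n t)) :
    gr x - rho (gm fun t => (p t : ℚ)) / rho (gm fun t => (q t : ℚ)) ∈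
      SR (Ln n) (2 * s + Real.log B) := by
  have hq0 : ∀ t, (0 : ℝ) < q t := fun t => by
    have h1 := hq t
    exact_mod_cast (by omega : 0 < q t)
  rw [← map_div₀, gm_div, rho_gm, gr_sub, mem_SR]
  intro ε hε
  filter_upwards [near_le hq0 h (half_pos hε)] with t h1
  push_cast
  refine (hx t).trans ?_
  have h2 : (0 : ℝ) < B ^ n t := pow_pos (by linarith only [hB]) _
  have h3 : Real.exp (-(2 * s + Real.log B - ε) * Ln n t) =
      1 / (Real.exp ((s - ε / 2) * Ln n t) ^ 2 * B ^ n t) := by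
    rw [← Real.exp_nat_mul, one_div, mul_inv, ← Real.exp_neg]
    conv_rhs => rw [← Real.exp_log (inv_pos.2 h2), ← Real.exp_add, Real.log_inv, Real.log_pow]
    congr 1
    unfold Ln
    push_cast
    ring
  rw [h3]
  refine one_div_le_one_div_of_le (mul_pos (pow_pos (Real.exp_pos _) _) h2) ?_
  have h4 := Real.exp_pos ((s - ε / 2) * Ln n t)
  have h5 := h1.2
  gcongr

end Pool.Agent.Y760.RT
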