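import Pool.Agent.Y760.RT.Stm

/-!
# Project RT: evaluation of polynomials at characters, independence (helper760)
-/

set_option autoImplicit false

namespace Pool.Agent.Y760.RT

open Filter Topology Pool.Agent.TH932.Abs Pool.Agent.TH932.Germs Pool.Agent.TH932.Chi
open Pool.Agent.TH796.AL Pool.Agent.TH147.AL

section phi

variable {m : ℕ} (B : Base m) {L : ℕ → ℝ} (hL : Tendsto L atTop atTop)

/-- real exponents -/
def cf {m : ℕ} (g : Fin m →₀ ℕ) : Fin m → ℝ := fun i => (g i : ℝ)

lemma cf_inj {m : ℕ} {g h : Fin m →₀ ℕ} (e : cf g = cf h) : g = h := by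
  ext i
  have h1 := congrFun e i
  unfold cf at h1
  exact_mod_cast h1

lemma ch_nsmul (n : ℕ) (g : Fin m → ℝ) : ch B hL (n • g) = ch B hL g ^ n := by
  induction n with
  | zero => rw [zero_smul, ch_zero, pow_zero]
  | succ n ih => rw [succ_nsmul, ch_add, ih, pow_succ]

lemma ch_finsum (s : Finset (Fin m)) (g : Fin m → Fin m → ℝ) :
    ch B hL (∑ i ∈ s, g i) = ∏ i ∈ s, ch B hL (g i) := by
  classical
  induction s using Finset.induction_on with
  | empty => rw [Finset.sum_empty, Finset.prod_empty, ch_zero]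
  | insert i s hi ih => rw [Finset.sum_insert hi, Finset.prod_insert hi, ch_add, ih]

lemma phi_monomial (g : Fin m →₀ ℕ) (c : KK L hL) :
    phi B hL (MvPolynomial.monomial g c) = (c : GG) * ch B hL (cf g) := by
  unfold phi
  rw [MvPolynomial.coe_eval₂Hom, MvPolynomial.eval₂_monomial, Finsupp.prod_fintype _ _ (by simp)]
  have h1 : (algebraMap (KK L hL) GG) c = (c : GG) := rfl
  rw [h1]
  congr 1
  have h2 : cf g = ∑ i, (g i) • (Pi.single i (1 : ℝ) : Fin m → ℝ) := by
    funext j
    rw [Finset.sum_apply, Finset.sum_eq_single j]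
    · rw [Pi.smul_apply, Pi.single_eq_same, nsmul_eq_mul, mul_one]
      rfl
    · intro i _ hi
      rw [Pi.smul_apply, Pi.single_eq_of_ne hi.symm, smul_zero]
    · intro h
      exact absurd (Finset.mem_univ j) h
  rw [h2, ch_finsum]
  exact Finset.prod_congr rfl fun i _ => (ch_nsmul B hL _ _).symm

lemma phi_eq (A : MvPolynomial (Fin m) (KK L hL)) :
    phi B hL A = ∑ g ∈ A.support, ((A.coeff g : KK L hL) : GG) * ch B hL (cf g) := by
  conv_lhs => rw [A.as_sum]
  rw [map_sum]
  exact Finset.sum_congr rfl fun g _ => phi_monomial B hL g _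

/-- the characters are independent -/
lemma li_ch {ι : Type} [Fintype ι] (f : ι → Fin m → ℝ) (hf : Function.Injective f)
    (c : ι → KK L hL) (h : ∑ i, (c i : GG) * ch B hL (f i) = 0) : ∀ i, c i = 0 := by
  classical
  have h1 : ev B hL (∑ i, if True then (AddMonoidAlgebra.single (f i) (c i) : Rg m hL) else 0) = 0 := by
    rw [ev_sum' hL (fun _ : ι => True) f c, ← h]
    exact Finset.sum_congr rfl fun i _ => if_pos trivial
  have h2 := su_thm m B L hL _ h1
  intro i
  have h3 := coeff_sum_eq (fun _ : ι => True) f hf c i trivial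
  rw [h2] at h3
  exact h3.symm

lemma phi_inj {A : MvPolynomial (Fin m) (KK L hL)} (h : phi B hL A = 0) : A = 0 := by
  rw [phi_eq, ← Finset.sum_coe_sort] at h
  have h1 := li_ch B hL (fun g : A.support => cf (g : Fin m →₀ ℕ))
    (fun a b hab => Subtype.ext (cf_inj hab)) (fun g => A.coeff g) h
  by_contra hne
  obtain ⟨g, hg⟩ := MvPolynomial.ne_zero_iff.1 hne
  exact hg (h1 ⟨g, MvPolynomial.mem_support_iff.2 hg⟩)

lemma phi_ne {A : MvPolynomial (Fin m) (KK L hL)} (h : A ≠ 0) : phi B hL A ≠ 0 :=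
  fun h1 => h (phi_inj B hL h1)

end phi

section ext

variable {L : ℕ → ℝ} (hL : Tendsto L atTop atTop)

/-- the empty base -/
def B0 : Base 0 := ⟨fun i => i.elim0, fun i => i.elim0, fun i => i.elim0⟩

/-- independence over the constants of the larger field -/
lemma ext_li (F : IntermediateField ℚ ℝ) (hF : FiniteDimensional ℚ F) {ι : Type} [Fintype ι]
    (x : ι → GG) (hx : ∀ c : ι → KK L hL, ∑ i, (c i : GG) * x i = 0 → ∀ i, c i = 0)
    (c : ι → KA F hL) (h : ∑ i, (c i : HR) * rho (x i) = 0) : ∀ i, c i = 0 := by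
  classical
  have h1 := ext_thm 0 B0 L hL F hF ι inferInstance x (fun A hA => by
    have h2 : ∀ j, A j = AddMonoidAlgebra.single 0 ((A j).coeff 0) := by
      intro j
      refine AddMonoidAlgebra.coeff_injective (Finsupp.ext fun g => ?_)
      have hg : g = 0 := Subsingleton.elim _ _
      subst hg
      rw [AddMonoidAlgebra.coeff_single, Finsupp.single_eq_same]
    have h3 := hx (fun j => (A j).coeff 0) (by
      rw [← hA]
      refine Finset.sum_congr rfl fun j _ => ?_
      conv_rhs => rw [h2 j]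
      rw [ev_single, ch_zero, mul_one])
    intro j
    rw [h2 j, h3 j, AddMonoidAlgebra.single_zero])
    (fun j => AddMonoidAlgebra.single 0 (c j)) (by
      rw [← h]
      refine Finset.sum_congr rfl fun j _ => ?_
      rw [evA_single, ch_zero, map_one, mul_one])
  intro j
  have h4 : (AddMonoidAlgebra.single (0 : Fin 0 → ℝ) (c j)).coeff 0 =
      (0 : RgA F 0 hL).coeff 0 := by rw [h1 j]
  rw [AddMonoidAlgebra.coeff_single, Finsupp.single_eq_same] at h4
  exact h4

end ext

/-- a unitriangular change of an independent family -/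
lemma unitri {R M ι₁ ι₂ : Type} [CommRing R] [AddCommGroup M] [Module R M] [Fintype ι₁]
    [Fintype ι₂] (y : ι₁ ⊕ ι₂ → M) (hy : ∀ c : ι₁ ⊕ ι₂ → R, ∑ i, c i • y i = 0 → ∀ i, c i = 0)
    (r : ι₁ → ι₂ → R) (c : ι₁ ⊕ ι₂ → R)
    (h : ∑ g, c (Sum.inl g) • (y (Sum.inl g) + ∑ k, r g k • y (Sum.inr k)) +
      ∑ k, c (Sum.inr k) • y (Sum.inr k) = 0) : ∀ i, c i = 0 := by
  have h1 := hy (Sum.elim (fun g => c (Sum.inl g))
    (fun k => c (Sum.inr k) + ∑ g, c (Sum.inl g) * r g k)) (by
      rw [← h, Fintype.sum_sum_type]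
      simp only [Sum.elim_inl, Sum.elim_inr, smul_add, Finset.sum_add_distrib, Finset.smul_sum,
        add_smul, Finset.sum_smul, smul_smul]
      rw [Finset.sum_comm (s := Finset.univ (α := ι₂))]
      abel)
  have h2 : ∀ g, c (Sum.inl g) = 0 := fun g => h1 (Sum.inl g)
  intro i
  cases i with
  | inl g => exact h2 g
  | inr k =>
    have h3 := h1 (Sum.inr k)
    simp only [Sum.elim_inr, h2, zero_mul, Finset.sum_const_zero, add_zero] at h3
    exact h3

end Pool.Agent.Y760.RT
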