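import Pool.Agent.Y760.RT.Kp

/-!
# Project RT: the case of a relation (helper760)
-/

set_option autoImplicit false

namespace Pool.Agent.Y760.RT

open Filter Topology Pool.Agent.TH932.Abs Pool.Agent.TH932.Germs Pool.Agent.TH932.Chi
open Pool.Agent.TH796.AL Pool.Agent.TH147.AL Pool.Agent.Y760.ZG Pool.Agent.TH932.Scale

lemma inc_lt {m m' : ℕ} (g : Fin m → ℝ) (i : Fin m') (h : (i : ℕ) < m) :
    inc m' g i = g ⟨i, h⟩ := dif_pos h

lemma inc_ge {m m' : ℕ} (g : Fin m → ℝ) (i : Fin m') (h : ¬ (i : ℕ) < m) :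
    inc m' g i = 0 := dif_neg h

lemma lv_inc {m m' : ℕ} (h : m ≤ m') (g : Fin m → ℝ) :
    lv (bs m') none (inc m' g) = lv (bs m) none g := by
  show -∑ i : Fin m', ex g i * Real.log (pr i) = -∑ i : Fin m, g i * Real.log (pr i)
  rw [Fin.sum_univ_eq_sum_range (fun i => ex g i * Real.log (pr i)) m']
  have h1 : ∑ i : Fin m, g i * Real.log (pr i) =
      ∑ i ∈ Finset.range m, ex g i * Real.log (pr i) := by
    rw [← Fin.sum_univ_eq_sum_range (fun i => ex g i * Real.log (pr i)) m]
    refine Finset.sum_congr rfl fun i _ => ?_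
    unfold ex
    rw [dif_pos i.2]
  rw [h1]
  congr 1
  symm
  refine Finset.sum_subset (Finset.range_subset_range.2 h) fun i _ hi => ?_
  rw [Finset.mem_range] at hi
  unfold ex
  rw [dif_neg hi, zero_mul]

lemma log_pr (i : ℕ) : 0 < Real.log (pr i) :=
  Real.log_pos (by exact_mod_cast (pr_prime i).one_lt)

/-- the integer with given exponents -/
noncomputable def hv {m : ℕ} (g : Fin m →₀ ℕ) : ℕ := ∏ i : Fin m, pr i ^ g i

lemma hv_pos {m : ℕ} (g : Fin m →₀ ℕ) : 0 < hv g :=
  Finset.prod_pos fun i _ => pow_pos (pr_prime i).pos _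

lemma lv_cf {m : ℕ} (g : Fin m →₀ ℕ) : lv (bs m) none (cf g) = -Real.log (hv g) := by
  show -∑ i : Fin m, (g i : ℝ) * Real.log (pr i) = -Real.log (hv g)
  unfold hv
  push_cast
  rw [Real.log_prod fun i _ => pow_ne_zero _ (by exact_mod_cast (pr_prime i).ne_zero)]
  congr 1
  exact Finset.sum_congr rfl fun i _ => (Real.log_pow _ _).symm

lemma lv_ek {m k : ℕ} (hk : k ≠ 0) (hkm : k < pr m) :
    lv (bs m) none (fun i => -(ek m k i : ℝ)) = Real.log k := by
  show -∑ i : Fin m, -(ek m k i : ℝ) * Real.log (pr i) = Real.log k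
  conv_rhs => rw [← prod_ek hk hkm]
  push_cast
  rw [Real.log_prod fun i _ => pow_ne_zero _ (by exact_mod_cast (pr_prime i).ne_zero),
    ← Finset.sum_neg_distrib]
  refine Finset.sum_congr rfl fun i _ => ?_
  rw [Real.log_pow]
  ring

/-- larger exponents and smaller values give equal exponents -/
lemma eq_of_lv {m : ℕ} {g γ : Fin m →₀ ℕ} (h1 : ∀ i, γ i ≤ g i)
    (h2 : lv (bs m) none (cf γ) ≤ lv (bs m) none (cf g)) : g = γ := by
  have h3 : ∑ i : Fin m, ((g i : ℝ) - γ i) * Real.log (pr i) ≤ 0 := by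
    have h4 : -∑ i : Fin m, (γ i : ℝ) * Real.log (pr i) ≤
      -∑ i : Fin m, (g i : ℝ) * Real.log (pr i) := h2
    have h5 : ∑ i : Fin m, ((g i : ℝ) - γ i) * Real.log (pr i) =
        ∑ i : Fin m, (g i : ℝ) * Real.log (pr i) - ∑ i : Fin m, (γ i : ℝ) * Real.log (pr i) := by
      rw [← Finset.sum_sub_distrib]
      exact Finset.sum_congr rfl fun i _ => by ring
    rw [h5]
    linarith only [h4]
  have h6 : ∀ i, 0 ≤ ((g i : ℝ) - γ i) * Real.log (pr i) := fun i => by
    have h7 : (γ i : ℝ) ≤ g i := by exact_mod_cast h1 i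
    exact mul_nonneg (by linarith only [h7]) (log_pr i).le
  have h8 := (Finset.sum_eq_zero_iff_of_nonneg fun i _ => h6 i).1
    (le_antisymm h3 (Finset.sum_nonneg fun i _ => h6 i))
  ext i
  have h9 := (mul_eq_zero.1 (h8 i (Finset.mem_univ i))).resolve_right (log_pr i).ne'
  have h10 : (g i : ℝ) = γ i := by linarith only [h9]
  exact_mod_cast h10

section

variable {n : ℕ → ℕ} {c : ℕ → ℝ} {α : ℕ → ℝ} {p q : ℕ → ℤ} {s B : ℝ}

/-- **no bad approximations** -/
theorem no_bad (hgcd : GcdStmt) (hn : ∀ t, t ≤ n t) (hq : ∀ t, 1 ≤ q t)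
    (hcop : ∀ t, IsCoprime (p t) (q t)) (hs0 : 0 ≤ s)
    (hs : near (Ln n) (fun t => Real.log (q t)) s) (hB : 1 < B) (hT : Tail c α)
    (happ : ∀ t, |α (n t) - p t / q t| ≤ 1 / ((q t : ℝ) ^ 2 * B ^ n t))
    (hc : ∀ k, IsAlgebraic ℚ (c k)) (hp0 : gm (fun t => (p t : ℚ)) ≠ 0)
    (hne : ∀ t, (p t : ℝ) / q t ≠ c 1) (r : ℕ) (hrs : Real.log r ≤ s)
    (H : Irrational (c 1) ∨ ∀ h : ℕ, 1 ≤ h → (2 ≤ h ∨ 2 ≤ r) →
      ∃ k, 2 ≤ k ∧ k ≤ h * max h r ∧ Nat.Coprime h k ∧ c k ≠ 0) :
    False := by
  classical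
  obtain ⟨m, A, A', hA0, hA'0, hrel, hφ⟩ := exists_rel hn hq hs hB hT happ hc hp0
  set P := gm (fun t => (p t : ℚ)) with hP
  set Q := gm (fun t => (q t : ℚ)) with hQ
  have hQ0 : Q ≠ 0 := by
    rw [hQ, gm_ne_zero]
    refine Eventually.of_forall fun t => ?_
    have := hq t
    exact_mod_cast (by omega : q t ≠ 0)
  have hrQ : rho Q ≠ 0 := fun h => hQ0 (rho_injective (by rw [h, map_zero]))
  have hD : phi (bs m) (tLn hn) A / Q ∈ Sv (bs m) (Ln n) none 0 := by
    refine hgcd m (bs m) (fun i => pr_prime i) (Ln n) (tLn hn) A' A hA'0 hA0 hrel.symm p q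
      (phi (bs m) (tLn hn) A / Q) hcop ?_ ?_
    · rw [← hP, mul_div_assoc', mul_comm, hφ, mul_div_assoc, div_self hQ0, mul_one]
    · rw [← hQ, mul_div_cancel₀ _ hQ0]
  have hφA : rho (phi (bs m) (tLn hn) A) ∈ SR (Ln n) (-s) := by
    have h1 := SR_mul (tLn hn) (q_mem hq hs) (SR_rho hD)
    rw [← hQ, ← map_mul, mul_div_cancel₀ _ hQ0, add_zero] at h1
    exact h1
  have hrφ : rho (phi (bs m) (tLn hn) A') = rho (phi (bs m) (tLn hn) A) * (rho P / rho Q) := by
    rw [mul_div_assoc', ← map_mul, hφ, map_mul, mul_div_assoc, div_self hrQ, mul_one]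
  -- the largest monomial
  obtain ⟨γ, hγ, hγm⟩ := Finset.exists_min_image A.support (fun g => lv (bs m) none (cf g))
    (by
      rw [Finset.nonempty_iff_ne_empty, Ne, MvPolynomial.support_eq_empty]
      exact hA0)
  have hγ0 : A.coeff γ ≠ 0 := MvPolynomial.mem_support_iff.1 hγ
  set N := hv γ with hN
  have hN1 : 1 ≤ N := hv_pos γ
  -- the parameters
  obtain ⟨M1, hM1⟩ := exists_M (2 * s + Real.log B)
  set M' := max M1 (N * max N r + 1) with hM'
  have hMM : 2 * s + Real.log B ≤ Real.log ((M' : ℝ) + 1) :=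
    hM1.trans (log_mono (le_max_left _ _))
  set m' := max m M' with hm'
  have hmm : m ≤ m' := le_max_left _ _
  have hlt : ∀ k ≤ M', k < pr m' := fun k hk => by
    have h1 := pr_ge' m'
    have h2 : M' ≤ m' := le_max_right _ _
    omega
  obtain ⟨F, hF, hcF⟩ := exists_field c hc M'
  have h1 : ∀ k : Finset.Icc 1 M', ∃ a : KA F (tLn hn),
      algebraMap ℝ HR (c k) * rho (kg n k) =
      (a : HR) * rho (ch (bs m') (tLn hn) (fun i => -(ek m' k i : ℝ))) := by
    intro k
    have hk := Finset.mem_Icc.1 k.2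
    exact exists_coef hn F c m' (by omega) (hlt _ hk.2) (hcF _ hk.2)
  choose a ha using h1
  set kc : KK (Ln n) (tLn hn) → KA F (tLn hn) := fun κ => ⟨_, rho_mem_KA (tLn hn) F κ⟩ with hkc
  have hkc0 : ∀ κ, κ ≠ 0 → kc κ ≠ 0 := by
    intro κ hκ h
    apply hκ
    have h2 : rho (κ : GG) = 0 := congrArg Subtype.val h
    exact Subtype.ext (rho_injective (by rw [h2, ZeroMemClass.coe_zero, map_zero]))
  have ha0 : ∀ k : Finset.Icc 1 M', c k ≠ 0 → a k ≠ 0 := by
    intro k hk h
    have h2 := ha k
    rw [h, ZeroMemClass.coe_zero, zero_mul] at h2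
    have hk1 := (Finset.mem_Icc.1 k.2).1
    rcases mul_eq_zero.1 h2 with h3 | h3
    · exact hk ((algebraMap ℝ HR).injective (by rw [h3, map_zero]))
    · have h4 : kg n k ≠ 0 := by
        unfold kg
        rw [gm_ne_zero]
        refine Eventually.of_forall fun t => inv_ne_zero (pow_ne_zero _ ?_)
        exact_mod_cast (by omega : (k : ℕ) ≠ 0)
      exact h4 (rho_injective (by rw [h3, map_zero]))
  -- the first lower bound for the size of the denominators
  have hsN : Real.log N ≤ s := by
    have h2 := kpsum (tLn hn) F hF (fun g : A.support => cf (g : Fin m →₀ ℕ))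
      (fun g => kc (A.coeff g)) (x := -s) (by
        have h3 : ∑ g : A.support, (kc (A.coeff (g : Fin m →₀ ℕ)) : HR) *
            rho (ch (bs m) (tLn hn) (cf (g : Fin m →₀ ℕ))) = rho (phi (bs m) (tLn hn) A) := by
          rw [phi_eq, map_sum, ← Finset.sum_coe_sort A.support]
          exact Finset.sum_congr rfl fun g _ => (map_mul _ _ _).symm
        rw [h3]
        exact hφA) (cf γ) (by
        rw [Finset.sum_eq_single (⟨γ, hγ⟩ : A.support)]
        · rw [if_pos rfl]
          exact hkc0 _ hγ0
        · intro g _ hg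
          rw [if_neg]
          intro h4
          exact hg (Subtype.ext (cf_inj h4))
        · intro h4
          exact absurd (Finset.mem_univ _) h4)
    rw [lv_cf] at h2
    linarith only [h2]
  -- the key proposition for the difference
  set f : (A.support × Finset.Icc 1 M') ⊕ A'.support → Fin m' → ℝ :=
    Sum.elim (fun x => inc m' (cf (x.1 : Fin m →₀ ℕ)) + fun i => -(ek m' x.2 i : ℝ))
      (fun x => inc m' (cf (x : Fin m →₀ ℕ))) with hf
  set b : (A.support × Finset.Icc 1 M') ⊕ A'.support → KA F (tLn hn) :=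
    Sum.elim (fun x => kc (A.coeff (x.1 : Fin m →₀ ℕ)) * a x.2)
      (fun x => -kc (A'.coeff (x : Fin m →₀ ℕ))) with hb
  have hx : ∑ i, (b i : HR) * rho (ch (bs m') (tLn hn) (f i)) ∈ SR (Ln n) (s + Real.log B) := by
    have h2 := SR_mul (tLn hn) hφA (tr_mem hn hq hs hB hT happ hMM)
    rw [show -s + (2 * s + Real.log B) = s + Real.log B by ring] at h2
    have h3 : ∑ i, (b i : HR) * rho (ch (bs m') (tLn hn) (f i)) =
        rho (phi (bs m) (tLn hn) A) * (tr n c M' - rho P / rho Q) := by
      rw [Fintype.sum_sum_type, mul_sub, ← hrφ, sub_eq_add_neg]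
      congr 1
      · rw [phi_eq, map_sum, tr, Finset.sum_mul_sum, ← Finset.sum_coe_sort A.support,
          Fintype.sum_prod_type]
        refine Finset.sum_congr rfl fun g _ => ?_
        rw [← Finset.sum_coe_sort (Finset.Icc 1 M')]
        refine Finset.sum_congr rfl fun k _ => ?_
        rw [hb, hf, Sum.elim_inl, Sum.elim_inl, ha k, ch_add, ch_inc (tLn hn) hmm, map_mul, map_mul]
        show rho _ * (a k : HR) * (rho _ * rho _) = _
        ring
      · rw [phi_eq, map_sum, ← Finset.sum_coe_sort A'.support, ← Finset.sum_neg_distrib]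
        refine Finset.sum_congr rfl fun g _ => ?_
        rw [hb, hf, Sum.elim_inr, Sum.elim_inr, ch_inc (tLn hn) hmm, map_mul, ← neg_mul]
        rfl
    rw [h3]
    exact h2
  have key : ∀ g : Fin m' → ℝ, ∑ i, (if f i = g then b i else 0) ≠ 0 →
      s + Real.log B ≤ lv (bs m') none g := fun g hg => kpsum (tLn hn) F hF f b hx g hg
  have hlB : 0 < Real.log B := Real.log_pos hB
  -- equality of points
  have hpt : ∀ (g : Fin m →₀ ℕ) (k : ℕ) (i : Fin m') (hi : (i : ℕ) < m),
      (inc m' (cf g) + fun i => -(ek m' k i : ℝ)) i = (g ⟨i, hi⟩ : ℝ) - ek m' k i := by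
    intro g k i hi
    rw [Pi.add_apply, inc_lt _ _ hi, ← sub_eq_add_neg]
    rfl
  have hpt' : ∀ (g : Fin m →₀ ℕ) (k : ℕ) (i : Fin m') (_ : ¬ (i : ℕ) < m),
      (inc m' (cf g) + fun i => -(ek m' k i : ℝ)) i = -(ek m' k i : ℝ) := by
    intro g k i hi
    rw [Pi.add_apply, inc_ge _ _ hi, zero_add]
  have hU : ∀ (k0 : Finset.Icc 1 M'), (∀ i : Fin m, ∀ hi : (i : ℕ) < m',
      γ i = 0 ∨ ek m' k0 ⟨i, hi⟩ = 0) → ∀ x : A.support × Finset.Icc 1 M',
      f (Sum.inl x) = f (Sum.inl (⟨γ, hγ⟩, k0)) → x = (⟨γ, hγ⟩, k0) := by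
    intro k0 hco x hx
    rw [hf, Sum.elim_inl, Sum.elim_inl] at hx
    have h2 : ∀ i : Fin m, γ i ≤ (x.1 : Fin m →₀ ℕ) i := by
      intro i
      have hi : (i : ℕ) < m' := lt_of_lt_of_le i.2 hmm
      have h3 := congrFun hx ⟨i, hi⟩
      rw [hpt _ _ _ i.2, hpt _ _ _ i.2] at h3
      have h4 : ((x.1 : Fin m →₀ ℕ) i : ℝ) + ek m' k0 ⟨i, hi⟩ =
          (γ i : ℝ) + ek m' x.2 ⟨i, hi⟩ := by
        have h5 : (⟨((⟨i, hi⟩ : Fin m') : ℕ), i.2⟩ : Fin m) = i := rfl
        rw [h5] at h3
        linarith only [h3]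
      have h6 : (x.1 : Fin m →₀ ℕ) i + ek m' k0 ⟨i, hi⟩ = γ i + ek m' x.2 ⟨i, hi⟩ := by
        exact_mod_cast h4
      rcases hco i hi with h7 | h7
      · omega
      · omega
    have h3 := eq_of_lv h2 (hγm _ x.1.2)
    have h4 : (fun i => -(ek m' x.2 i : ℝ)) = fun i => -(ek m' k0 i : ℝ) := by
      rw [h3] at hx
      exact add_left_cancel hx
    have h5 : ek m' x.2 = ek m' k0 := by
      funext i
      have h6 := congrFun h4 i
      simp only [neg_inj] at h6
      exact_mod_cast h6
    have hk1 := Finset.mem_Icc.1 x.2.2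
    have hk2 := Finset.mem_Icc.1 k0.2
    have hx2 : (x.2 : ℕ) ≠ 0 := by omega
    have hk02 : (k0 : ℕ) ≠ 0 := by omega
    exact Prod.ext (Subtype.ext h3) (Subtype.ext (ek_inj hx2 (hlt _ hk1.2) hk02
      (hlt _ hk2.2) h5))
  -- the leading coefficients
  have hM'1 : 1 ≤ M' := (Nat.le_add_left 1 (N * max N r)).trans
    (le_max_right M1 (N * max N r + 1))
  set k1 : Finset.Icc 1 M' := ⟨1, Finset.mem_Icc.2 ⟨le_rfl, hM'1⟩⟩ with hk1
  have ha1 : (a k1 : HR) = algebraMap ℝ HR (c 1) := by
    have h2 := ha k1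
    have h3 : (fun i => -(ek m' ((k1 : Finset.Icc 1 M') : ℕ) i : ℝ)) = 0 := by
      funext i
      show -(ek m' 1 i : ℝ) = 0
      rw [ek_one]
      simp
    have h4 : kg n ((k1 : Finset.Icc 1 M') : ℕ) = 1 := by
      show kg n 1 = 1
      unfold kg
      rw [← gm_one]
      congr 1
      funext t
      simp
    rw [h3, h4, ch_zero, map_one, mul_one, mul_one] at h2
    exact h2.symm
  have hlead : rho ((MvPolynomial.coeff γ A : KK (Ln n) (tLn hn)) : GG) * algebraMap ℝ HR (c 1) = rho ((MvPolynomial.coeff γ A' : KK (Ln n) (tLn hn)) : GG) := by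
    by_contra hne'
    have h2 := key (inc m' (cf γ)) (by
      rw [Fintype.sum_sum_type]
      have hf1 : f (Sum.inl (⟨γ, hγ⟩, k1)) = inc m' (cf γ) := by
        rw [hf, Sum.elim_inl]
        have h3 : (fun i => -(ek m' ((k1 : Finset.Icc 1 M') : ℕ) i : ℝ)) = 0 := by
          funext i
          show -(ek m' 1 i : ℝ) = 0
          rw [ek_one]
          simp
        show inc m' (cf γ) + (fun i => -(ek m' ((k1 : Finset.Icc 1 M') : ℕ) i : ℝ)) = _
        rw [h3, add_zero]
      have h3 : ∑ x, (if f (Sum.inl x) = inc m' (cf γ) then b (Sum.inl x) else 0) =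
          kc (A.coeff γ) * a k1 := by
        rw [Finset.sum_eq_single ((⟨γ, hγ⟩, k1) : A.support × Finset.Icc 1 M')]
        · rw [if_pos hf1]
          rfl
        · intro x _ hx
          rw [if_neg]
          intro h4
          rw [← hf1] at h4
          refine hx (hU k1 (fun i hi => Or.inr ?_) x h4)
          show ek m' 1 ⟨i, hi⟩ = 0
          rw [ek_one]
          rfl
        · intro h4
          exact absurd (Finset.mem_univ _) h4
      have h4 : ∑ x, (if f (Sum.inr x) = inc m' (cf γ) then b (Sum.inr x) else 0) =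
          -kc (A'.coeff γ) := by
        have h5 : ∀ x : A'.support, (f (Sum.inr x) = inc m' (cf γ)) ↔ (x : Fin m →₀ ℕ) = γ := by
          intro x
          rw [hf, Sum.elim_inr]
          constructor
          · intro h6
            apply cf_inj
            funext i
            have h7 := congrFun h6 (⟨i, lt_of_lt_of_le i.2 hmm⟩ : Fin m')
            rw [inc_lt _ (⟨i, lt_of_lt_of_le i.2 hmm⟩ : Fin m') i.2,
              inc_lt _ (⟨i, lt_of_lt_of_le i.2 hmm⟩ : Fin m') i.2] at h7
            exact h7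
          · intro h6
            rw [h6]
        by_cases h6 : γ ∈ A'.support
        · rw [Finset.sum_eq_single (⟨γ, h6⟩ : A'.support)]
          · rw [if_pos ((h5 _).2 rfl)]
            rfl
          · intro x _ hx
            rw [if_neg]
            intro h7
            exact hx (Subtype.ext ((h5 x).1 h7))
          · intro h7
            exact absurd (Finset.mem_univ _) h7
        · rw [Finset.sum_eq_zero fun x _ => by
            rw [if_neg]
            intro h7
            exact h6 (((h5 x).1 h7) ▸ x.2)]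
          rw [MvPolynomial.notMem_support_iff.1 h6]
          have h8 : kc 0 = 0 := Subtype.ext (map_zero rho)
          rw [h8, neg_zero]
      rw [h3, h4]
      intro h5
      apply hne'
      have h6 := congrArg Subtype.val h5
      have h7 : rho ((MvPolynomial.coeff γ A : KK (Ln n) (tLn hn)) : GG) * (a k1 : HR) + -rho ((MvPolynomial.coeff γ A' : KK (Ln n) (tLn hn)) : GG) = 0 := h6
      rw [ha1] at h7
      exact add_neg_eq_zero.1 h7)
    rw [lv_inc hmm, lv_cf] at h2
    have h3 : 0 ≤ Real.log N := Real.log_nonneg (by exact_mod_cast hN1)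
    linarith only [h2, h3, hlB, hs0]
  by_cases hirr : Irrational (c 1)
  · -- irrational leading coefficient
    have h2 : algebraMap ℝ HR (c 1) = rho (((MvPolynomial.coeff γ A' : KK (Ln n) (tLn hn)) : GG) / ((MvPolynomial.coeff γ A : KK (Ln n) (tLn hn)) : GG)) := by
      have h3 : rho ((MvPolynomial.coeff γ A : KK (Ln n) (tLn hn)) : GG) ≠ 0 := by
        intro h4
        exact hγ0 (Subtype.ext (rho_injective (by rw [h4, ZeroMemClass.coe_zero, map_zero])))
      rw [map_div₀, ← hlead, mul_div_cancel_left₀ _ h3]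
    obtain ⟨r, hr⟩ := gm_surj (((MvPolynomial.coeff γ A' : KK (Ln n) (tLn hn)) : GG) / ((MvPolynomial.coeff γ A : KK (Ln n) (tLn hn)) : GG))
    rw [← hr, rho_gm, cst_eq, gr_eq] at h2
    obtain ⟨t, ht⟩ := h2.exists
    exact hirr ⟨r t, ht.symm⟩
  · have H' := H.resolve_left hirr
    by_cases hN2 : ¬ (2 ≤ N ∨ 2 ≤ r)
    · -- constant polynomials
      have hNe : N = 1 := by omega
      have hγz : γ = 0 := by
        refine eq_of_lv (γ := 0) (g := γ) (fun i => Nat.zero_le _) ?_
        have h2 : (cf (0 : Fin m →₀ ℕ)) = 0 := by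
          funext i
          unfold cf
          simp
        rw [h2, lv_zero, lv_cf, ← hN, hNe, Nat.cast_one, Real.log_one, neg_zero]
      have hsupp : ∀ g ∈ A.support, g = 0 := by
        intro g hg
        refine eq_of_lv (γ := 0) (g := g) (fun i => Nat.zero_le _) ?_
        rw [← hγz]
        exact hγm g hg
      have hsupp' : ∀ g ∈ A'.support, g = 0 := by
        intro g hg
        by_contra hg0
        have h2 := key (inc m' (cf g)) (by
          rw [Fintype.sum_sum_type, Finset.sum_eq_zero, zero_add,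
            Finset.sum_eq_single (⟨g, hg⟩ : A'.support)]
          · rw [if_pos (by rw [hf, Sum.elim_inr])]
            show -kc (A'.coeff g) ≠ 0
            exact neg_ne_zero.2 (hkc0 _ (MvPolynomial.mem_support_iff.1 hg))
          · intro x _ hx
            rw [if_neg]
            intro h3
            apply hx
            apply Subtype.ext
            apply cf_inj
            funext i
            rw [hf, Sum.elim_inr] at h3
            have h7 := congrFun h3 (⟨i, lt_of_lt_of_le i.2 hmm⟩ : Fin m')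
            rw [inc_lt _ (⟨i, lt_of_lt_of_le i.2 hmm⟩ : Fin m') i.2,
              inc_lt _ (⟨i, lt_of_lt_of_le i.2 hmm⟩ : Fin m') i.2] at h7
            exact h7
          · intro h3
            exact absurd (Finset.mem_univ _) h3
          · intro x _
            rw [if_neg]
            intro h3
            rw [hf, Sum.elim_inl] at h3
            apply hg0
            ext i
            have hi : (i : ℕ) < m' := lt_of_lt_of_le i.2 hmm
            have h4 := congrFun h3 ⟨i, hi⟩
            rw [hpt _ _ _ i.2, inc_lt _ (⟨i, hi⟩ : Fin m') i.2, hsupp _ x.1.2] at h4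
            have h5 : (0 : ℝ) - (ek m' x.2 ⟨i, hi⟩ : ℝ) = (g i : ℝ) := by
              have h6 : (((0 : Fin m →₀ ℕ) ⟨((⟨i, hi⟩ : Fin m') : ℕ), i.2⟩ : ℕ) : ℝ) = 0 := by
                simp
              rw [h6] at h4
              exact h4
            have h6 : (0 : ℝ) ≤ (ek m' x.2 ⟨i, hi⟩ : ℝ) := Nat.cast_nonneg _
            have h7 : (0 : ℝ) ≤ (g i : ℝ) := Nat.cast_nonneg _
            have h8 : (g i : ℝ) = 0 := by linarith only [h5, h6, h7]
            show g i = 0
            exact_mod_cast h8)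
        rw [lv_inc hmm, lv_cf] at h2
        have h3 : 0 ≤ Real.log (hv g) := Real.log_nonneg (by exact_mod_cast hv_pos g)
        linarith only [h2, h3, hlB, hs0]
      have hconst : ∀ X : MvPolynomial (Fin m) (KK (Ln n) (tLn hn)), (∀ g ∈ X.support, g = 0) →
          phi (bs m) (tLn hn) X = ((X.coeff 0 : KK (Ln n) (tLn hn)) : GG) := by
        intro X hX
        have h2 : X = MvPolynomial.monomial 0 (X.coeff 0) := by
          refine MvPolynomial.ext _ _ fun g => ?_
          rw [MvPolynomial.coeff_monomial]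
          split_ifs with h3
          · rw [h3]
          · by_contra h4
            exact h3 (hX g (MvPolynomial.mem_support_iff.2 h4)).symm
        conv_lhs => rw [h2]
        rw [phi_monomial]
        have h3 : (cf (0 : Fin m →₀ ℕ)) = 0 := by
          funext i
          unfold cf
          simp
        rw [h3, ch_zero, mul_one]
      have h2 := hφ
      rw [hconst A hsupp, hconst A' hsupp'] at h2
      have h3 := congrArg rho h2
      rw [map_mul, map_mul] at h3
      rw [hγz] at hlead hγ0
      rw [← hlead, mul_assoc] at h3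
      have h4 : rho ((MvPolynomial.coeff 0 A : KK (Ln n) (tLn hn)) : GG) ≠ 0 := by
        intro h4
        exact hγ0 (Subtype.ext (rho_injective (by rw [h4, ZeroMemClass.coe_zero, map_zero])))
      have h5 := mul_left_cancel₀ h4 h3
      rw [hP, hQ, rho_gm, rho_gm, cst_eq, gr_mul, gr_eq] at h5
      obtain ⟨t, ht⟩ := h5.exists
      apply hne t
      have hq0 : (q t : ℝ) ≠ 0 := by
        have := hq t
        exact_mod_cast (by omega : q t ≠ 0)
      push_cast at ht
      rw [ht, mul_div_assoc, div_self hq0, mul_one]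
    · -- a term coprime to the leading monomial
      rw [not_not] at hN2
      obtain ⟨k, hk2, hkN, hcop', hck⟩ := H' N hN1 hN2
      have hkM : k ≤ M' := (hkN.trans (Nat.le_succ _)).trans (le_max_right M1 (N * max N r + 1))
      set k0 : Finset.Icc 1 M' := ⟨k, Finset.mem_Icc.2 ⟨by omega, hkM⟩⟩ with hk0
      have hco : ∀ i : Fin m, ∀ hi : (i : ℕ) < m', γ i = 0 ∨ ek m' k ⟨i, hi⟩ = 0 := by
        intro i hi
        by_contra hcon
        push Not at hcon
        have h2 : pr i ∣ N := by
          refine (dvd_pow_self (pr i) hcon.1).trans ?_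
          exact Finset.dvd_prod_of_mem (fun j : Fin m => pr j ^ γ j) (Finset.mem_univ i)
        have h3 : pr i ∣ k := by
          refine Nat.dvd_of_factorization_pos (n := k) (p := pr i) ?_
          exact hcon.2
        have h4 := Nat.dvd_gcd h2 h3
        rw [hcop'] at h4
        exact (pr_prime i).one_lt.ne' (Nat.dvd_one.1 h4)
      have h2 := key (f (Sum.inl (⟨γ, hγ⟩, k0))) (by
        rw [Finset.sum_eq_single (Sum.inl (⟨γ, hγ⟩, k0))]
        · rw [if_pos rfl, hb, Sum.elim_inl]
          exact mul_ne_zero (hkc0 _ hγ0) (ha0 k0 hck)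
        · intro x _ hx
          rw [if_neg]
          intro h3
          cases x with
          | inl x =>
            exact hx (congrArg Sum.inl (hU k0 hco x h3))
          | inr x =>
            -- an exponent of `k` is positive
            have h4 : ∃ i : Fin m', ek m' k i ≠ 0 := by
              by_contra h5
              push Not at h5
              have h6 := prod_ek (m := m') (k := k) (by omega) (hlt k hkM)
              rw [Finset.prod_eq_one fun i _ => by rw [h5 i, pow_zero]] at h6
              omega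
            obtain ⟨i, hi⟩ := h4
            rw [hf, Sum.elim_inr, Sum.elim_inl] at h3
            have h5 := congrFun h3 i
            have h6 : (1 : ℝ) ≤ (ek m' k i : ℝ) := by
              exact_mod_cast Nat.one_le_iff_ne_zero.2 hi
            by_cases him : (i : ℕ) < m
            · rw [inc_lt _ _ him, hpt _ _ _ him] at h5
              have h7 : γ ⟨i, him⟩ = 0 := (hco ⟨i, him⟩ i.2).resolve_right hi
              have h8 : (0 : ℝ) ≤ cf (x : Fin m →₀ ℕ) ⟨i, him⟩ := Nat.cast_nonneg _
              have h9 : ((γ ⟨i, him⟩ : ℕ) : ℝ) = 0 := by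
                rw [h7]
                exact Nat.cast_zero
              have h10 : cf (x : Fin m →₀ ℕ) ⟨i, him⟩ = ((γ ⟨i, him⟩ : ℕ) : ℝ) - (ek m' k i : ℝ) :=
                h5
              rw [h9] at h10
              linarith only [h6, h8, h10]
            · rw [inc_ge _ _ him, hpt' _ _ _ him] at h5
              have h10 : (0 : ℝ) = -(ek m' k i : ℝ) := h5
              linarith only [h6, h10]
        · intro h3
          exact absurd (Finset.mem_univ _) h3)
      have h3 : lv (bs m') none (f (Sum.inl (⟨γ, hγ⟩, k0))) = -Real.log N + Real.log k := by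
        rw [hf, Sum.elim_inl, lv_add, lv_inc hmm, lv_cf, lv_ek (by
          show k ≠ 0
          omega) (hlt k hkM)]
      rw [h3] at h2
      have h4 : Real.log k ≤ Real.log N + s := by
        have h5 : Real.log ((max N r : ℕ) : ℝ) ≤ s := by
          rcases le_total N r with h | h
          · rw [max_eq_right h]
            exact hrs
          · rw [max_eq_left h]
            exact hsN
        have h6 : Real.log k ≤ Real.log ((N : ℝ) * ((max N r : ℕ) : ℝ)) := by
          refine Real.log_le_log ?_ ?_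
          · exact_mod_cast (by omega : 0 < k)
          · exact_mod_cast hkN
        have h7 : (N : ℝ) ≠ 0 := by exact_mod_cast (by omega : N ≠ 0)
        have h8 : ((max N r : ℕ) : ℝ) ≠ 0 := by
          have : 1 ≤ max N r := hN1.trans (le_max_left _ _)
          exact_mod_cast (by omega : max N r ≠ 0)
        rw [Real.log_mul h7 h8] at h6
        linarith only [h5, h6]
      linarith only [h2, h4, hsN, hlB]

end

end Pool.Agent.Y760.RT
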