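import Pool.Agent.Y760.RT.Ba

/-!
# Project RT: the case without relations (helper760)
-/

set_option autoImplicit false

namespace Pool.Agent.Y760.RT

open Filter Topology Pool.Agent.TH932.Abs Pool.Agent.TH932.Germs Pool.Agent.TH932.Chi
open Pool.Agent.TH796.AL Pool.Agent.TH147.AL

/-- the choice of the size of the box -/
lemma exists_box (m E : ℕ) (c ε : ℝ) (hε : 0 < ε) :
    ∃ N : ℕ, 0 < ((N : ℝ) + 1) ^ m * (c + ε) - ((N : ℝ) + E + 1) ^ m * c := by
  have h1 : Tendsto (fun N : ℕ => ((N : ℝ) + 1)⁻¹) atTop (𝓝 0) :=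
    tendsto_inv_atTop_zero.comp (tendsto_atTop_add_const_right _ _ tendsto_natCast_atTop_atTop)
  have h2 : Tendsto (fun N : ℕ => (1 + E * ((N : ℝ) + 1)⁻¹) ^ m) atTop (𝓝 ((1 + E * 0) ^ m)) :=
    ((h1.const_mul (E : ℝ)).const_add 1).pow m
  rw [mul_zero, add_zero, one_pow] at h2
  have h3 : Tendsto (fun N : ℕ => (c + ε) - (1 + E * ((N : ℝ) + 1)⁻¹) ^ m * c) atTop
      (𝓝 ((c + ε) - 1 * c)) := (h2.mul_const c).const_sub _
  have h4 : (0 : ℝ) < (c + ε) - 1 * c := by linarith only [hε]
  obtain ⟨N, hN⟩ := (h3.eventually (lt_mem_nhds h4)).exists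
  refine ⟨N, ?_⟩
  have h5 : (0 : ℝ) < (N : ℝ) + 1 := by positivity
  have h6 : ((N : ℝ) + 1) ^ m * (c + ε) - ((N : ℝ) + E + 1) ^ m * c =
      ((N : ℝ) + 1) ^ m * ((c + ε) - (1 + E * ((N : ℝ) + 1)⁻¹) ^ m * c) := by
    have h7 : ((N : ℝ) + E + 1) ^ m = ((N : ℝ) + 1) ^ m * (1 + E * ((N : ℝ) + 1)⁻¹) ^ m := by
      rw [← mul_pow]
      congr 1
      field_simp
      ring
    rw [h7]
    ring
  rw [h6]
  exact mul_pos (pow_pos h5 m) hN

section

variable {m : ℕ} (B : Base m) {L : ℕ → ℝ} (hL : Tendsto L atTop atTop)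

/-- exponents -/
noncomputable def uu {m N : ℕ} (E : ℕ) (g : Fin m → Fin (N + 1)) : Fin m →₀ ℕ :=
  Finsupp.equivFunOnFinite.symm fun i => (g i : ℕ) + E

lemma uu_inj {m N : ℕ} (E : ℕ) : Function.Injective (uu (m := m) (N := N) E) := by
  intro g h e
  funext i
  have h1 := DFunLike.congr_fun e i
  unfold uu at h1
  simp only [Finsupp.equivFunOnFinite_symm_apply_apply] at h1
  exact Fin.ext (by omega)

lemma cf_uu {m N : ℕ} (E : ℕ) (g : Fin m → Fin (N + 1)) (i : Fin m) :
    cf (uu E g) i = (g i : ℕ) + (E : ℝ) := by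
  unfold cf uu
  rw [Finsupp.equivFunOnFinite_symm_apply_apply]
  push_cast
  rfl

lemma coeff_sum_mono {ι : Type} [Fintype ι] (f : ι → Fin m →₀ ℕ) (hf : Function.Injective f)
    (c : ι → KK L hL) (i : ι) :
    (∑ j, MvPolynomial.monomial (f j) (c j) : MvPolynomial (Fin m) (KK L hL)).coeff (f i) = c i := by
  classical
  rw [MvPolynomial.coeff_sum, Finset.sum_eq_single i]
  · rw [MvPolynomial.coeff_monomial, if_pos rfl]
  · intro j _ hj
    rw [MvPolynomial.coeff_monomial, if_neg]
    exact fun h => hj (hf h)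
  · intro h
    exact absurd (Finset.mem_univ i) h

/-- **no small values without relations** -/
theorem nondeg (F : IntermediateField ℚ ℝ) (hF : FiniteDimensional ℚ F) {κ : Type} [Fintype κ]
    (a : κ → KA F hL) (e : κ → Fin m → ℕ) (E : ℕ) (he : ∀ k i, e k i ≤ E) (p q : GG)
    (hp : ∀ i, p ∈ Sv B L (some i) 0) (hq : ∀ i, q ∈ Sv B L (some i) 0)
    (hpS : Sint B L p) (hqS : Sint B L q) (cq cp ε : ℝ) (hqI : q ∈ Sv B L none (-cq))
    (hpI : p ∈ Sv B L none (-cp)) (hε : 0 < ε)
    (h : rho p - rho q * ∑ k, (a k : HR) * rho (ch B hL (fun i => -(e k i : ℝ))) ∈ SR L (cq + ε))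
    (hno : ∀ A A' : MvPolynomial (Fin m) (KK L hL), phi B hL A * p = phi B hL A' * q →
      A = 0 ∧ A' = 0) : False := by
  classical
  obtain ⟨N, hN⟩ := exists_box m E cq ε hε
  set α : HR := ∑ k, (a k : HR) * rho (ch B hL (fun i => -(e k i : ℝ))) with hα
  set I1 : Type := Fin m → Fin (N + 1) with hI1
  set I2 : Type := Fin m → Fin (N + E + 1) with hI2
  set u : I1 → Fin m → ℝ := fun g => cf (uu E g) with hu
  set w : I2 → Fin m → ℝ := fun g => cf (uu 0 g) with hw
  set x : I1 ⊕ I2 → GG := Sum.elim (fun g => ch B hL (u g) * p) (fun g => ch B hL (w g) * q) with hx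
  -- independence of the coordinates
  have hxli : ∀ c : I1 ⊕ I2 → KK L hL, ∑ i, (c i : GG) * x i = 0 → ∀ i, c i = 0 := by
    intro c hc
    have h1 := hno (∑ g : I1, MvPolynomial.monomial (uu E g) (c (Sum.inl g)))
      (-∑ g : I2, MvPolynomial.monomial (uu 0 g) (c (Sum.inr g))) (by
        rw [map_neg, map_sum, map_sum, neg_mul, eq_neg_iff_add_eq_zero, Finset.sum_mul,
          Finset.sum_mul, ← hc, Fintype.sum_sum_type]
        congr 1
        · refine Finset.sum_congr rfl fun g _ => ?_
          rw [phi_monomial, hx, Sum.elim_inl, mul_assoc]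
        · refine Finset.sum_congr rfl fun g _ => ?_
          rw [phi_monomial, hx, Sum.elim_inr, mul_assoc])
    intro i
    cases i with
    | inl g =>
      have h2 := coeff_sum_mono hL (uu E) (uu_inj E) (fun g : I1 => c (Sum.inl g)) g
      rw [h1.1, MvPolynomial.coeff_zero] at h2
      exact h2.symm
    | inr g =>
      have h2 := coeff_sum_mono hL (uu 0) (uu_inj 0) (fun g : I2 => c (Sum.inr g)) g
      rw [neg_eq_zero.1 h1.2, MvPolynomial.coeff_zero] at h2
      exact h2.symm
  have hyli := fun c => ext_li hL F hF x hxli c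
  -- the shifted exponents
  have hlt : ∀ (g : I1) (k : κ) (i : Fin m), (g i : ℕ) + E - e k i < N + E + 1 := by
    intro g k i
    have := (g i).2
    omega
  set sh : I1 → κ → I2 := fun g k i => ⟨(g i : ℕ) + E - e k i, hlt g k i⟩ with hsh
  have hwsh : ∀ g k, w (sh g k) = u g + fun i => -(e k i : ℝ) := by
    intro g k
    funext i
    rw [hw, hu]
    simp only
    rw [cf_uu, Pi.add_apply, cf_uu]
    have h1 := he k i
    rw [hsh]
    simp only
    rw [Nat.cast_sub (by omega)]
    push_cast
    ring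
  set r : I1 → I2 → KA F hL := fun g k' => -∑ k, if sh g k = k' then a k else 0 with hr
  set Φ : HR := rho p - rho q * α with hΦ
  have hexp : ∀ g, rho (ch B hL (u g)) * Φ =
      rho (x (Sum.inl g)) + ∑ k', (r g k') • rho (x (Sum.inr k')) := by
    intro g
    have h1 : ∑ k', (r g k') • rho (x (Sum.inr k')) =
        -∑ k, (a k : HR) * (rho (ch B hL (u g)) * rho (ch B hL (fun i => -(e k i : ℝ))) *
          rho q) := by
      have h2 : ∀ k', (r g k') • rho (x (Sum.inr k')) =
          -∑ k, if sh g k = k' then (a k : HR) * rho (x (Sum.inr k')) else 0 := by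
        intro k'
        rw [hr]
        simp only
        rw [neg_smul, Finset.sum_smul]
        congr 1
        refine Finset.sum_congr rfl fun k _ => ?_
        split_ifs
        · rw [Subalgebra.smul_def, smul_eq_mul]
        · rw [zero_smul]
      rw [Finset.sum_congr rfl fun k' _ => h2 k', Finset.sum_neg_distrib, Finset.sum_comm]
      congr 1
      refine Finset.sum_congr rfl fun k _ => ?_
      rw [Finset.sum_ite_eq, if_pos (Finset.mem_univ _), hx, Sum.elim_inr, hwsh, ch_add, map_mul,
        map_mul]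
    rw [h1, hΦ, hα, hx, Sum.elim_inl, map_mul, mul_sub, ← sub_eq_add_neg, Finset.mul_sum,
      Finset.mul_sum]
    congr 1
    refine Finset.sum_congr rfl fun k _ => ?_
    ring
  set z : I1 ⊕ I2 → HR := Sum.elim (fun g => rho (ch B hL (u g)) * Φ)
    (fun g => rho (x (Sum.inr g))) with hz
  have hzli : ∀ c : I1 ⊕ I2 → KA F hL, ∑ i, (c i : HR) * z i = 0 → ∀ i, c i = 0 := by
    intro c hc
    refine unitri (fun i => rho (x i)) (fun c' hc' => hyli c' (by
      rw [← hc']
      refine Finset.sum_congr rfl fun i _ => ?_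
      rw [Subalgebra.smul_def, smul_eq_mul])) r c ?_
    rw [← hc, Fintype.sum_sum_type]
    refine congrArg₂ (· + ·) (Finset.sum_congr rfl fun g _ => ?_) rfl
    rw [← hexp, Subalgebra.smul_def, smul_eq_mul, hz, Sum.elim_inl]
  have hzsp : ∀ i, ∃ c : I1 ⊕ I2 → KA F hL, z i = ∑ j, (c j : HR) * rho (x j) := by
    intro i
    have h1 : z i ∈ Submodule.span (KA F hL) (Set.range fun j => rho (x j)) := by
      cases i with
      | inl g =>
        rw [hz, Sum.elim_inl, hexp]
        refine Submodule.add_mem _ (Submodule.subset_span ⟨Sum.inl g, rfl⟩)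
          (Submodule.sum_mem _ fun k' _ => Submodule.smul_mem _ _
            (Submodule.subset_span ⟨Sum.inr k', rfl⟩))
      | inr g =>
        rw [hz, Sum.elim_inr]
        exact Submodule.subset_span ⟨Sum.inr g, rfl⟩
    obtain ⟨c, hc⟩ := (Submodule.mem_span_range_iff_exists_fun (KA F hL)).1 h1
    exact ⟨c, hc.symm⟩
  -- valuations
  have hxI : ∀ i, x i ∈ Sv B L none (Sum.elim (fun g => lv B none (u g) - cp)
      (fun g => lv B none (w g) - cq) i) := by
    intro i
    cases i with
    | inl g =>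
      rw [hx, Sum.elim_inl, Sum.elim_inl, sub_eq_add_neg]
      exact (filt_v hL none).mul_mem (ch_mem hL none _) hpI
    | inr g =>
      rw [hx, Sum.elim_inr, Sum.elim_inr, sub_eq_add_neg]
      exact (filt_v hL none).mul_mem (ch_mem hL none _) hqI
  set D : I1 ⊕ I2 → ℝ := Sum.elim (fun g => lv B none (u g) - cp)
      (fun g => lv B none (w g) - cq) with hD
  have hmain := mova_thm m B L hL F hF (I1 ⊕ I2) inferInstance x z
    (fun v => Sum.elim (fun g => lv B (some v) (u g)) (fun g => lv B (some v) (w g)))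
    (Sum.elim (fun g => lv B none (u g) + (cq + ε)) (fun g => lv B none (w g) - cq))
    hxli hzli hzsp (fun v i => by
      cases i with
      | inl g =>
        have h1 := (filt_v hL (some v)).mul_mem (ch_mem hL (some v) (u g)) (hp v)
        rw [add_zero] at h1
        exact h1
      | inr g =>
        have h1 := (filt_v hL (some v)).mul_mem (ch_mem hL (some v) (w g)) (hq v)
        rw [add_zero] at h1
        exact h1)
    (fun i => by
      cases i with
      | inl g =>
        rw [hz, Sum.elim_inl, Sum.elim_inl]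
        exact SR_mul hL (SR_rho (ch_mem hL none _)) h
      | inr g =>
        rw [hz, Sum.elim_inr, Sum.elim_inr]
        exact SR_rho (hxI (Sum.inr g)))
    (fun i => by
      cases i with
      | inl g => exact Sint.mul hL (ch_sint hL _) hpS
      | inr g => exact Sint.mul hL (ch_sint hL _) hqS)
    (∑ i, |D i|) (fun i => by
      refine SR_anti hL ?_ (SR_rho (hxI i))
      have h1 : |D i| ≤ ∑ i, |D i| :=
        Finset.single_le_sum (f := fun i => |D i|) (fun _ _ => abs_nonneg _) (Finset.mem_univ i)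
      have h2 := neg_abs_le (D i)
      linarith only [h1, h2])
  -- the sum of the weights
  have hs : ∀ g : Fin m → ℝ, ∑ v : Fin m, lv B (some v) g + lv B none g = 0 := by
    intro g
    have h1 := lv_sum (B := B) g
    rw [Fintype.sum_option] at h1
    linarith only [h1]
  have hsum : ∑ v : Fin m, ∑ i : I1 ⊕ I2, (Sum.elim (fun g => lv B (some v) (u g))
      (fun g => lv B (some v) (w g)) i) +
      ∑ i, (Sum.elim (fun g => lv B none (u g) + (cq + ε)) (fun g => lv B none (w g) - cq) :
        I1 ⊕ I2 → ℝ) i = ((N : ℝ) + 1) ^ m * (cq + ε) - ((N : ℝ) + E + 1) ^ m * cq := by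
    rw [Finset.sum_comm, Fintype.sum_sum_type, Fintype.sum_sum_type]
    simp only [Sum.elim_inl, Sum.elim_inr]
    have c1 : (Fintype.card I1 : ℝ) = ((N : ℝ) + 1) ^ m := by
      show (Fintype.card (Fin m → Fin (N + 1)) : ℝ) = _
      rw [Fintype.card_fun, Fintype.card_fin, Fintype.card_fin]
      push_cast
      rfl
    have c2 : (Fintype.card I2 : ℝ) = ((N : ℝ) + E + 1) ^ m := by
      show (Fintype.card (Fin m → Fin (N + E + 1)) : ℝ) = _
      rw [Fintype.card_fun, Fintype.card_fin, Fintype.card_fin]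
      push_cast
      rfl
    have e1 : ∑ g : I1, (∑ v : Fin m, lv B (some v) (u g)) +
        ∑ g : I1, (lv B none (u g) + (cq + ε)) = ((N : ℝ) + 1) ^ m * (cq + ε) := by
      rw [← Finset.sum_add_distrib, ← c1]
      simp only [← add_assoc, hs]
      rw [Finset.sum_const, nsmul_eq_mul, Finset.card_univ, zero_add]
    have e2 : ∑ g : I2, (∑ v : Fin m, lv B (some v) (w g)) +
        ∑ g : I2, (lv B none (w g) - cq) = -(((N : ℝ) + E + 1) ^ m * cq) := by
      rw [← Finset.sum_add_distrib, ← c2]
      simp only [← add_sub_assoc, hs]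
      rw [Finset.sum_const, nsmul_eq_mul, Finset.card_univ, zero_sub]
      ring
    linarith only [e1, e2]
  rw [hsum] at hmain
  exact absurd hmain (not_le.2 hN)

end

end Pool.Agent.Y760.RT
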