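import Pool.Agent.Y760.RT.Ap
import Pool.Agent.Y760.RT.Nd

/-!
# Project RT: existence of a relation; the key proposition for sums (helper760)
-/

set_option autoImplicit false

namespace Pool.Agent.Y760.RT

open Filter Topology Pool.Agent.TH932.Abs Pool.Agent.TH932.Germs Pool.Agent.TH932.Chi
open Pool.Agent.TH796.AL Pool.Agent.TH147.AL Pool.Agent.Y760.ZG Pool.Agent.TH932.Scale

/-- finitely many real algebraic numbers lie in a number field -/
lemma exists_field (c : ℕ → ℝ) (hc : ∀ k, IsAlgebraic ℚ (c k)) (M : ℕ) :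
    ∃ F : IntermediateField ℚ ℝ, FiniteDimensional ℚ F ∧ ∀ k ≤ M, c k ∈ F := by
  refine ⟨IntermediateField.adjoin ℚ (Set.range fun j : Fin (M + 1) => c j), ?_, ?_⟩
  · exact IntermediateField.finiteDimensional_adjoin fun x hx => by
      obtain ⟨j, rfl⟩ := hx
      exact (hc j).isIntegral
  · intro k hk
    exact IntermediateField.subset_adjoin ℚ _ ⟨⟨k, by omega⟩, rfl⟩

/-- the key proposition for sums of characters -/
lemma kpsum {L : ℕ → ℝ} (hL : Tendsto L atTop atTop) (F : IntermediateField ℚ ℝ)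
    (hF : FiniteDimensional ℚ F) {ι : Type} [Fintype ι] {m : ℕ} (f : ι → Fin m → ℝ)
    (b : ι → KA F hL) {x : ℝ}
    (hx : ∑ i, (b i : HR) * rho (ch (bs m) hL (f i)) ∈ SR L x) (g : Fin m → ℝ)
    [DecidableEq (Fin m → ℝ)]
    (hg : ∑ i, (if f i = g then b i else 0) ≠ 0) : x ≤ lv (bs m) none g := by
  classical
  set A : RgA F m hL := ∑ i, AddMonoidAlgebra.single (f i) (b i) with hA
  have h1 := kpu mova_thm ext_thm m (bs m) L hL F hF Unit (fun _ => 1) 0
    (fun A hA j => by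
      rw [Fintype.sum_unique, mul_one] at hA
      exact su_thm m (bs m) L hL _ hA)
    (fun v _ => (filt_v hL (some v)).alg_mem 1)
    (fun _ => by
      rw [neg_zero]
      exact (filt_v hL none).alg_mem 1)
    (fun _ => Sint.alg hL (1 : KK L hL))
    (fun _ => A) x (by
      rw [Fintype.sum_unique, map_one, mul_one, hA, map_sum]
      have h2 : ∑ i, evA F (bs m) hL (AddMonoidAlgebra.single (f i) (b i)) =
          ∑ i, (b i : HR) * rho (ch (bs m) hL (f i)) :=
        Finset.sum_congr rfl fun i _ => evA_single hL F _ _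
      rw [h2]
      exact hx) () g (by
      rw [hA, AddMonoidAlgebra.coeff_sum, Finsupp.finsetSum_apply]
      intro h3
      apply hg
      refine Eq.trans ?_ h3
      refine Finset.sum_congr rfl fun i _ => ?_
      rw [AddMonoidAlgebra.coeff_single]
      split_ifs with h4
      · rw [← h4, Finsupp.single_eq_same]
      · rw [Finsupp.single_eq_of_ne (Ne.symm h4)])
  simpa using h1

variable {n : ℕ → ℕ}

/-- the terms of the series as multiples of characters -/
lemma exists_coef (hn : ∀ t, t ≤ n t) (F : IntermediateField ℚ ℝ) (c : ℕ → ℝ) (m : ℕ) {k : ℕ}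
    (hk : k ≠ 0) (hkm : k < pr m) (hcF : c k ∈ F) :
    ∃ a : KA F (tLn hn), algebraMap ℝ HR (c k) * rho (kg n k) =
      (a : HR) * rho (ch (bs m) (tLn hn) (fun i => -(ek m k i : ℝ))) := by
  obtain ⟨κ, _, hκ⟩ := kg_eq hn hk hkm
  refine ⟨⟨_, cst_mem_KA (tLn hn) F ⟨c k, hcF⟩⟩ * ⟨_, rho_mem_KA (tLn hn) F κ⟩, ?_⟩
  rw [hκ, map_mul, ← mul_assoc]
  rfl

section

variable {c : ℕ → ℝ} {α : ℕ → ℝ} {p q : ℕ → ℤ} {s B : ℝ}

/-- the tail condition -/
def Tail (c α : ℕ → ℝ) : Prop := ∀ M : ℕ, ∃ A : ℝ, ∀ᶠ k : ℕ in atTop,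
  |α k - ∑ j ∈ Finset.Icc 1 M, c j / (j : ℝ) ^ k| ≤ A / ((M : ℝ) + 1) ^ k

lemma exists_M (x : ℝ) : ∃ M : ℕ, x ≤ Real.log ((M : ℝ) + 1) := by
  obtain ⟨M, hM⟩ := exists_nat_ge (Real.exp x)
  refine ⟨M, ?_⟩
  rw [← Real.log_exp x]
  exact Real.log_le_log (Real.exp_pos _) (by linarith only [hM])

lemma log_mono {M M' : ℕ} (h : M ≤ M') : Real.log ((M : ℝ) + 1) ≤ Real.log ((M' : ℝ) + 1) := by
  have h1 : (M : ℝ) ≤ M' := by exact_mod_cast h
  exact Real.log_le_log (by positivity) (by linarith only [h1])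

/-- the truncated series minus the approximation -/
lemma tr_mem (hn : ∀ t, t ≤ n t) (hq : ∀ t, 1 ≤ q t)
    (hs : near (Ln n) (fun t => Real.log (q t)) s) (hB : 1 < B) (hT : Tail c α)
    (happ : ∀ t, |α (n t) - p t / q t| ≤ 1 / ((q t : ℝ) ^ 2 * B ^ n t)) {M : ℕ}
    (hM : 2 * s + Real.log B ≤ Real.log ((M : ℝ) + 1)) :
    tr n c M - rho (gm fun t => (p t : ℚ)) / rho (gm fun t => (q t : ℚ)) ∈
      SR (Ln n) (2 * s + Real.log B) := by
  obtain ⟨A, hA⟩ := hT M
  have h1 := tail_mem hn c α M hA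
  have h2 := app_mem hB hq hs happ
  have h3 := SR_sub (tLn hn) h2 (SR_anti (tLn hn) hM h1)
  have h4 : ∀ x y z : HR, x - y - (x - z) = z - y := fun x y z => by ring
  rwa [h4] at h3

lemma p_bdd (hn : ∀ t, t ≤ n t) (hq : ∀ t, 1 ≤ q t) (hB : 1 < B) (hT : Tail c α)
    (happ : ∀ t, |α (n t) - p t / q t| ≤ 1 / ((q t : ℝ) ^ 2 * B ^ n t)) :
    ∃ R : ℝ, 0 < R ∧ ∀ᶠ t in (UU : Filter ℕ), |(p t : ℝ)| ≤ R * q t := by
  obtain ⟨A, hA⟩ := hT 0
  refine ⟨|A| + 1, by positivity, ?_⟩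
  filter_upwards [ev_of_tail hn hA] with t h1
  have h2 := happ t
  have hq1 : (1 : ℝ) ≤ q t := by exact_mod_cast hq t
  simp only [Finset.Icc_eq_empty_of_lt Nat.zero_lt_one, Finset.sum_empty, sub_zero,
    Nat.cast_zero, zero_add, one_pow, div_one] at h1
  have h3 : 1 / ((q t : ℝ) ^ 2 * B ^ n t) ≤ 1 := by
    rw [div_le_one (by positivity)]
    have h4 : (1 : ℝ) ≤ (q t : ℝ) ^ 2 := one_le_pow₀ hq1
    have h5 : (1 : ℝ) ≤ B ^ n t := one_le_pow₀ hB.le
    nlinarith only [h4, h5]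
  have h6 : |(p t : ℝ) / q t| ≤ |A| + 1 := by
    have h7 := abs_sub_abs_le_abs_sub ((p t : ℝ) / q t) (α (n t))
    rw [abs_sub_comm] at h7
    have h8 := le_abs_self A
    linarith only [h7, h1, h2, h3, h8]
  rw [abs_div, abs_of_pos (by linarith only [hq1] : (0 : ℝ) < q t),
    div_le_iff₀ (by linarith only [hq1])] at h6
  exact h6

lemma IG_q (hq : ∀ t, 1 ≤ q t) (hs : near (Ln n) (fun t => Real.log (q t)) s) :
    IG (Ln n) (s + 1) (gm fun t => (q t : ℚ)) := by
  refine ⟨q, rfl, ?_⟩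
  have hq0 : ∀ t, (0 : ℝ) < q t := fun t => by
    have h1 := hq t
    exact_mod_cast (by omega : 0 < q t)
  filter_upwards [near_le hq0 hs one_pos] with t h1
  rw [abs_of_pos (hq0 t)]
  exact h1.1

lemma IG_p (hn : ∀ t, t ≤ n t) (hq : ∀ t, 1 ≤ q t)
    (hs : near (Ln n) (fun t => Real.log (q t)) s) (hB : 1 < B) (hT : Tail c α)
    (happ : ∀ t, |α (n t) - p t / q t| ≤ 1 / ((q t : ℝ) ^ 2 * B ^ n t)) :
    IG (Ln n) (s + 2) (gm fun t => (p t : ℚ)) := by
  refine ⟨p, rfl, ?_⟩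
  obtain ⟨R, hR, h1⟩ := p_bdd hn hq hB hT happ
  have hq0 : ∀ t, (0 : ℝ) < q t := fun t => by
    have h1 := hq t
    exact_mod_cast (by omega : 0 < q t)
  filter_upwards [h1, near_le hq0 hs one_pos, const_le hn R one_pos] with t h2 h3 h4
  refine h2.trans ?_
  calc R * q t ≤ Real.exp (1 * Ln n t) * Real.exp ((s + 1) * Ln n t) := by
        have := hq0 t
        gcongr
        exact h3.1
    _ = _ := by
        rw [← Real.exp_add]
        congr 1
        ring

/-- **a relation exists** -/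
theorem exists_rel (hn : ∀ t, t ≤ n t) (hq : ∀ t, 1 ≤ q t)
    (hs : near (Ln n) (fun t => Real.log (q t)) s) (hB : 1 < B) (hT : Tail c α)
    (happ : ∀ t, |α (n t) - p t / q t| ≤ 1 / ((q t : ℝ) ^ 2 * B ^ n t))
    (hc : ∀ k, IsAlgebraic ℚ (c k)) (hp0 : gm (fun t => (p t : ℚ)) ≠ 0) :
    ∃ (m : ℕ) (A A' : MvPolynomial (Fin m) (KK (Ln n) (tLn hn))), A ≠ 0 ∧ A' ≠ 0 ∧
      IsRelPrime A A' ∧ phi (bs m) (tLn hn) A * gm (fun t => (p t : ℚ)) =
        phi (bs m) (tLn hn) A' * gm (fun t => (q t : ℚ)) := by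
  classical
  have hq0 : gm (fun t => (q t : ℚ)) ≠ 0 := by
    rw [gm_ne_zero]
    refine Eventually.of_forall fun t => ?_
    have := hq t
    exact_mod_cast (by omega : q t ≠ 0)
  obtain ⟨M, hM⟩ := exists_M (2 * s + Real.log B)
  have hMp : ∀ k ≤ M, k < pr M := fun k hk => by
    have := pr_ge' M
    omega
  obtain ⟨F, hF, hcF⟩ := exists_field c hc M
  have h1 : ∀ k : Finset.Icc 1 M, ∃ a : KA F (tLn hn),
      algebraMap ℝ HR (c k) * rho (kg n k) =
      (a : HR) * rho (ch (bs M) (tLn hn) (fun i => -(ek M k i : ℝ))) := by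
    intro k
    have hk := Finset.mem_Icc.1 k.2
    exact exists_coef hn F c M (by omega) (hMp _ hk.2) (hcF _ hk.2)
  choose a ha using h1
  by_contra hcon
  refine nondeg (bs M) (tLn hn) F hF a (fun k => ek M k) M (fun k i => by
      have hk := Finset.mem_Icc.1 k.2
      exact (ek_le (by omega) i).trans hk.2)
    (gm fun t => (p t : ℚ)) (gm fun t => (q t : ℚ))
    (fun i => (IG_p hn hq hs hB hT happ).fin (tLn hn) (bs M) i)
    (fun i => (IG_q hq hs).fin (tLn hn) (bs M) i)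
    ((IG_p hn hq hs hB hT happ).sint (tLn hn) (bs M))
    ((IG_q hq hs).sint (tLn hn) (bs M)) s (s + 2) (Real.log B)
    (SR_rho' (q_mem hq hs))
    ((IG_p hn hq hs hB hT happ).inf (tLn hn) (bs M)) (Real.log_pos hB) ?_ ?_
  · have h2 : ∑ k, (a k : HR) * rho (ch (bs M) (tLn hn) (fun i => -(ek M k i : ℝ))) =
        tr n c M := by
      unfold tr
      rw [← Finset.sum_coe_sort (Finset.Icc 1 M)]
      exact Finset.sum_congr rfl fun k _ => (ha k).symm
    rw [h2]
    have h3 := SR_mul (tLn hn) (q_mem hq hs) (SR_neg (tr_mem hn hq hs hB hT happ hM))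
    rw [show -s + (2 * s + Real.log B) = s + Real.log B by ring] at h3
    have h4 : rho (gm fun t => (q t : ℚ)) ≠ 0 := fun h => hq0 (rho_injective (by rw [h, map_zero]))
    have h5 : rho (gm fun t => (q t : ℚ)) * -(tr n c M - rho (gm fun t => (p t : ℚ)) /
        rho (gm fun t => (q t : ℚ))) = rho (gm fun t => (p t : ℚ)) -
        rho (gm fun t => (q t : ℚ)) * tr n c M := by
      field_simp
      ring
    rwa [h5] at h3
  · intro A1 A2 h12
    by_contra hne
    have hA1 : A1 ≠ 0 := by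
      intro h
      apply hne
      refine ⟨h, ?_⟩
      rw [h, map_zero, zero_mul] at h12
      rcases mul_eq_zero.1 h12.symm with h13 | h13
      · exact phi_inj _ _ h13
      · exact absurd h13 hq0
    have hA2 : A2 ≠ 0 := by
      intro h
      rw [h, map_zero, zero_mul] at h12
      rcases mul_eq_zero.1 h12 with h13 | h13
      · exact hA1 (phi_inj _ _ h13)
      · exact absurd h13 hp0
    obtain ⟨A, A', G, hrel, hA, hA'⟩ :=
      UniqueFactorizationMonoid.exists_reduced_factors A1 hA1 A2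
    have hG : G ≠ 0 := by
      rintro rfl
      rw [zero_mul] at hA
      exact hA1 hA.symm
    refine hcon ⟨M, A, A', ?_, ?_, hrel, ?_⟩
    · rintro rfl
      rw [mul_zero] at hA
      exact hA1 hA.symm
    · rintro rfl
      rw [mul_zero] at hA'
      exact hA2 hA'.symm
    · refine mul_left_cancel₀ (phi_ne (bs M) (tLn hn) hG) ?_
      rw [← mul_assoc, ← mul_assoc, ← map_mul, ← map_mul, hA, hA', h12]

end

end Pool.Agent.Y760.RT
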