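import Pool.Agent.Y760.RT.Mr
import Pool.Agent.Y287.RT.AD
import Pool.Agent.Y419.RT.Dim
import Pool.Agent.Y454.RT.Fin
import Pool.Agent.Y362.RT.Gcd

/-!
# Project RT: assembly (helper760; jobs by helper287, helper419, helper454, helper362)
-/

set_option autoImplicit false

namespace Pool.Agent.Y760.RT

theorem gcd_thm : GcdStmt :=
  Pool.Agent.Y362.RT.gcd Pool.Agent.Y287.RT.ad Pool.Agent.Y419.RT.dim Pool.Agent.Y454.RT.fin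

/-- **Roth's theorem for the values of Dirichlet series at large integers** -/
theorem mainT (c : ℕ → ℝ) (hc : ∀ k, IsAlgebraic ℚ (c k)) (α : ℕ → ℝ)
    (hT : Tail c α) (r : ℕ) (hr1 : 1 ≤ r) (hr : ∀ k, 1 ≤ k → k < r → c k = 0)
    (H : Irrational (c 1) ∨ ∀ h : ℕ, 1 ≤ h → (2 ≤ h ∨ 2 ≤ r) →
      ∃ k, 2 ≤ k ∧ k ≤ h * max h r ∧ Nat.Coprime h k ∧ c k ≠ 0)
    (C B : ℝ) (hB : 1 < B) : ∃ n0 : ℕ, ∀ n : ℕ, n0 ≤ n → ∀ p q : ℤ, 1 ≤ q → (q : ℝ) ≤ C ^ n →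
      (p : ℝ) / q ≠ c 1 → 1 / ((q : ℝ) ^ 2 * B ^ n) < |α n - p / q| :=
  mainR gcd_thm c hc α hT r hr1 hr H C B hB

end Pool.Agent.Y760.RT
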