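import Pool.Agent.Y760.RT.Fi

/-!
# Project RT: the main theorem (helper760)
-/

set_option autoImplicit false

namespace Pool.Agent.Y760.RT

open Filter Topology Pool.Agent.TH932.Abs Pool.Agent.TH932.Germs Pool.Agent.TH932.Chi
open Pool.Agent.TH796.AL Pool.Agent.TH147.AL Pool.Agent.Y760.ZG Pool.Agent.TH932.Scale

/-- reduction to lowest terms -/
lemma reduce {x : ℝ} {D : ℝ} (hD : 0 < D) {p q : ℤ} (hq : 1 ≤ q)
    (h : |x - p / q| ≤ 1 / ((q : ℝ) ^ 2 * D)) :
    ∃ p' q' : ℤ, 1 ≤ q' ∧ q' ≤ q ∧ IsCoprime p' q' ∧ (p' : ℝ) / q' = p / q ∧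
      |x - p' / q'| ≤ 1 / ((q' : ℝ) ^ 2 * D) := by
  obtain ⟨g, p', q', hg, hcop, hp', hq'⟩ : ∃ g p' q' : ℤ, 0 < g ∧ IsCoprime p' q' ∧ p = g * p' ∧
      q = g * q' := by
    have hg : 0 < Int.gcd p q := Int.gcd_pos_of_ne_zero_right _ (by omega)
    refine ⟨Int.gcd p q, p / Int.gcd p q, q / Int.gcd p q, by exact_mod_cast hg, ?_, ?_, ?_⟩
    · exact Int.isCoprime_iff_gcd_eq_one.2 (Int.gcd_div_gcd_div_gcd hg)
    · exact (Int.mul_ediv_cancel' (Int.gcd_dvd_left _ _)).symm
    · exact (Int.mul_ediv_cancel' (Int.gcd_dvd_right _ _)).symm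
  have hq'1 : 1 ≤ q' := by
    by_contra hcon
    have h1 : q' ≤ 0 := by omega
    have h2 : g * q' ≤ 0 := mul_nonpos_of_nonneg_of_nonpos hg.le h1
    omega
  have hle : q' ≤ q := by
    rw [hq']
    nlinarith only [hg, hq'1]
  have hgR : (g : ℝ) ≠ 0 := by exact_mod_cast hg.ne'
  have heq : (p' : ℝ) / q' = p / q := by
    rw [hp', hq']
    push_cast
    rw [mul_div_mul_left _ _ hgR]
  refine ⟨p', q', hq'1, hle, hcop, heq, ?_⟩
  rw [heq]
  refine h.trans ?_
  have h1 : (1 : ℝ) ≤ q' := by exact_mod_cast hq'1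
  have h2 : (q' : ℝ) ≤ q := by exact_mod_cast hle
  refine one_div_le_one_div_of_le (mul_pos (pow_pos (by linarith only [h1]) _) hD) ?_
  gcongr

/-- **rational approximations to the values of a Dirichlet series at large integers** -/
theorem mainR (hgcd : GcdStmt) (c : ℕ → ℝ) (hc : ∀ k, IsAlgebraic ℚ (c k)) (α : ℕ → ℝ)
    (hT : Tail c α)
    (r : ℕ) (hr1 : 1 ≤ r) (hr : ∀ k, 1 ≤ k → k < r → c k = 0)
    (H : Irrational (c 1) ∨ ∀ h : ℕ, 1 ≤ h → (2 ≤ h ∨ 2 ≤ r) →
      ∃ k, 2 ≤ k ∧ k ≤ h * max h r ∧ Nat.Coprime h k ∧ c k ≠ 0)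
    (C B : ℝ) (hB : 1 < B) : ∃ n0 : ℕ, ∀ n : ℕ, n0 ≤ n → ∀ p q : ℤ, 1 ≤ q → (q : ℝ) ≤ C ^ n →
      (p : ℝ) / q ≠ c 1 → 1 / ((q : ℝ) ^ 2 * B ^ n) < |α n - p / q| := by
  by_contra hcon
  push Not at hcon
  have hB0 : ∀ n : ℕ, 0 < B ^ n := fun n => pow_pos (by linarith only [hB]) n
  have h1 : ∀ t : ℕ, ∃ (n : ℕ) (p q : ℤ), t ≤ n ∧ 1 ≤ q ∧ (q : ℝ) ≤ C ^ n ∧ IsCoprime p q ∧
      (p : ℝ) / q ≠ c 1 ∧ |α n - p / q| ≤ 1 / ((q : ℝ) ^ 2 * B ^ n) := by
    intro t
    obtain ⟨n, hn, p, q, hq, hqC, hne, h2⟩ := hcon t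
    obtain ⟨p', q', h3, h4, h5, h6, h7⟩ := reduce (hB0 n) hq h2
    refine ⟨n, p', q', hn, h3, le_trans (by exact_mod_cast h4) hqC, h5, by rwa [h6], h7⟩
  choose n p q hn hq hqC hcop hne happ using h1
  have hqR : ∀ t, (1 : ℝ) ≤ q t := fun t => by exact_mod_cast hq t
  have hC0 : (1 : ℝ) ≤ |C| + 1 := by linarith only [abs_nonneg C]
  have hC1 : ∀ t, (q t : ℝ) ≤ (|C| + 1) ^ n t := by
    intro t
    refine ((hqC t).trans (le_abs_self _)).trans ?_
    rw [abs_pow]
    exact pow_le_pow_left₀ (abs_nonneg _) (by linarith only []) _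
  obtain ⟨s, hs0, -, hs⟩ := exists_st (L := Ln n) (tLn hn) (a := fun t => Real.log (q t))
    (A := Real.log (|C| + 1)) (Eventually.of_forall fun t => by
      refine ⟨Real.log_nonneg (hqR t), ?_⟩
      have h2 := Real.log_le_log (by linarith only [hqR t]) (hC1 t)
      rw [Real.log_pow, mul_comm] at h2
      exact h2)
  have hα : Tendsto (fun t => α (n t)) atTop (𝓝 (c 1)) := by
    obtain ⟨A, hA⟩ := hT 1
    have h2 : Tendsto (fun k : ℕ => A / (((1 : ℕ) : ℝ) + 1) ^ k) atTop (𝓝 0) := by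
      have h3 : Tendsto (fun k : ℕ => (((1 : ℕ) : ℝ) + 1) ^ k) atTop atTop :=
        tendsto_pow_atTop_atTop_of_one_lt (by norm_num)
      exact h3.const_div_atTop A
    have h4 : Tendsto α atTop (𝓝 (c 1)) := by
      rw [tendsto_iff_norm_sub_tendsto_zero]
      refine squeeze_zero' (Eventually.of_forall fun k => norm_nonneg _) ?_ h2
      filter_upwards [hA] with k hk
      rw [Finset.Icc_self, Finset.sum_singleton, Nat.cast_one, one_pow, div_one] at hk
      rw [Real.norm_eq_abs]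
      refine hk.trans (le_of_eq ?_)
      norm_num
    exact h4.comp (tendsto_atTop_mono hn tendsto_id)
  have happ0 : Tendsto (fun t => 1 / ((q t : ℝ) ^ 2 * B ^ n t)) atTop (𝓝 0) := by
    have h2 : Tendsto (fun t => B ^ n t) atTop atTop :=
      (tendsto_pow_atTop_atTop_of_one_lt hB).comp (tendsto_atTop_mono hn tendsto_id)
    have h3 : Tendsto (fun t => (B ^ n t)⁻¹) atTop (𝓝 0) := tendsto_inv_atTop_zero.comp h2
    refine squeeze_zero (fun t => ?_) (fun t => ?_) h3
    · exact div_nonneg zero_le_one (mul_nonneg (sq_nonneg _) (hB0 _).le)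
    · rw [one_div]
      refine inv_anti₀ (hB0 _) ?_
      have h4 : (1 : ℝ) ≤ (q t : ℝ) ^ 2 := one_le_pow₀ (hqR t)
      have h5 := hB0 (n t)
      nlinarith only [h4, h5]
  have hp0 : gm (fun t => (p t : ℚ)) ≠ 0 := by
    intro h0
    rw [← gm_zero, gm_eq] at h0
    have h2 : ∀ᶠ t in (UU : Filter ℕ), p t = 0 := by
      filter_upwards [h0] with t ht
      exact_mod_cast ht
    have hU : (UU : Filter ℕ) ≤ atTop := by
      intro S hS
      exact ev_of_atTop hS
    have h3 : Tendsto (fun t => |α (n t) - p t / q t|) (UU : Filter ℕ) (𝓝 0) :=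
      squeeze_zero (fun t => abs_nonneg _) happ (happ0.mono_left hU)
    have h4 : Tendsto (fun t => |α (n t)|) (UU : Filter ℕ) (𝓝 0) := by
      refine h3.congr' ?_
      filter_upwards [h2] with t ht
      rw [ht, Int.cast_zero, zero_div, sub_zero]
    have h5 := tendsto_nhds_unique h4 ((hα.mono_left hU).abs)
    have h6 : c 1 = 0 := abs_eq_zero.1 h5.symm
    obtain ⟨t, ht⟩ := h2.exists
    apply hne t
    rw [ht, Int.cast_zero, zero_div, h6]
  have hrs : Real.log r ≤ s := by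
    rcases Nat.lt_or_ge r 2 with hr2 | hr2
    · have h2 : r = 1 := by omega
      rw [h2, Nat.cast_one, Real.log_one]
      exact hs0
    · have hc1 : c 1 = 0 := hr 1 le_rfl (by omega)
      obtain ⟨A, hA⟩ := hT (r - 1)
      have hr0 : (0 : ℝ) < r := by exact_mod_cast (by omega : 0 < r)
      by_contra hcon2
      rw [not_le] at hcon2
      set ε : ℝ := (Real.log r - s) / 3 with hε
      have hε0 : 0 < ε := by
        rw [hε]
        linarith only [hcon2]
      have hq0 : ∀ t, (0 : ℝ) < q t := fun t => by linarith only [hqR t]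
      have hBt : Tendsto (fun t => B ^ n t) atTop atTop :=
        (tendsto_pow_atTop_atTop_of_one_lt hB).comp (tendsto_atTop_mono hn tendsto_id)
      obtain ⟨t, h3, h4, h5, h6⟩ := ((ev_of_tail hn hA).and ((near_le hq0 hs hε0).and
        ((const_le hn (2 * |A| + 1) hε0).and (ev_of_atTop (hBt.eventually_ge_atTop 2))))).exists
      have h7 : ∑ j ∈ Finset.Icc 1 (r - 1), c j / (j : ℝ) ^ n t = 0 :=
        Finset.sum_eq_zero fun j hj => by
          rw [Finset.mem_Icc] at hj
          rw [hr j hj.1 (by omega), zero_div]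
      have h8 : ((r - 1 : ℕ) : ℝ) + 1 = r := by
        rw [Nat.cast_sub (by omega), Nat.cast_one]
        ring
      rw [h7, sub_zero, h8] at h3
      have hp1 : 1 ≤ |(p t : ℝ)| := by
        have h9 : p t ≠ 0 := by
          intro h9
          apply hne t
          rw [h9, Int.cast_zero, zero_div, hc1]
        have h10 : 1 ≤ |p t| := Int.one_le_abs h9
        exact_mod_cast h10
      have h9 : 1 / (q t : ℝ) ≤ |A| / (r : ℝ) ^ n t + 1 / ((q t : ℝ) ^ 2 * B ^ n t) := by
        have h10 : 1 / (q t : ℝ) ≤ |(p t : ℝ) / q t| := by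
          rw [abs_div, abs_of_pos (hq0 t)]
          exact div_le_div_of_nonneg_right hp1 (hq0 t).le
        have h11 : |(p t : ℝ) / q t| ≤ |α (n t)| + |α (n t) - p t / q t| := by
          have h12 := abs_sub_abs_le_abs_sub ((p t : ℝ) / q t) (α (n t))
          rw [abs_sub_comm] at h12
          linarith only [h12]
        have h12 : A / (r : ℝ) ^ n t ≤ |A| / (r : ℝ) ^ n t :=
          div_le_div_of_nonneg_right (le_abs_self A) (pow_pos hr0 _).le
        linarith only [h10, h11, h12, h3, happ t]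
      have h10 : 1 / ((q t : ℝ) ^ 2 * B ^ n t) ≤ 1 / (2 * q t) := by
        refine one_div_le_one_div_of_le (mul_pos two_pos (hq0 t)) ?_
        have h11 := hqR t
        have h12 : (q t : ℝ) ≤ (q t : ℝ) ^ 2 := by nlinarith only [h11]
        nlinarith only [h11, h12, h6]
      have h11 : (r : ℝ) ^ n t ≤ 2 * |A| * q t := by
        have h12 : 1 / (q t : ℝ) = 2 * (1 / (2 * q t)) := by
          field_simp
        have h13 : 1 / (2 * (q t : ℝ)) ≤ |A| / (r : ℝ) ^ n t := by
          linarith only [h9, h10, h12]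
        rw [div_le_div_iff₀ (mul_pos two_pos (hq0 t)) (pow_pos hr0 _)] at h13
        linarith only [h13]
      have h12 : (r : ℝ) ^ n t = Real.exp (Real.log r * Ln n t) := by
        unfold Ln
        rw [mul_comm, Real.exp_nat_mul, Real.exp_log hr0]
      have h13 : 2 * |A| * q t < Real.exp (ε * Ln n t) * Real.exp ((s + ε) * Ln n t) := by
        have h14 : 2 * |A| < Real.exp (ε * Ln n t) := by linarith only [h5]
        exact lt_of_lt_of_le (mul_lt_mul_of_pos_right h14 (hq0 t))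
          (mul_le_mul_of_nonneg_left h4.1 (Real.exp_pos _).le)
      rw [← Real.exp_add] at h13
      rw [h12] at h11
      have h14 := Real.exp_lt_exp.1 (lt_of_le_of_lt h11 h13)
      have h15 : 0 ≤ Ln n t := by
        unfold Ln
        positivity
      have h16 : Real.log r = s + 3 * ε := by
        rw [hε]
        ring
      rw [h16] at h14
      nlinarith only [h14, h15, hε0]
  exact no_bad hgcd hn hq hcop hs0 hs hB hT happ hc hp0 hne r hrs H

end Pool.Agent.Y760.RT
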