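import Pool.Agent.Y760.RT.Ba
import Pool.Agent.Y760.ZG.Gen

/-!
# Project RT: germs of the terms of a Dirichlet series (helper760)
-/

set_option autoImplicit false

namespace Pool.Agent.Y760.RT

open Filter Topology Pool.Agent.TH932.Abs Pool.Agent.TH932.Germs Pool.Agent.TH932.Chi
open Pool.Agent.TH796.AL Pool.Agent.TH147.AL Pool.Agent.Y760.ZG

/-- exponents of the first primes in `k` -/
noncomputable def ek (m k : ℕ) : Fin m → ℕ := fun i => k.factorization (pr i)

lemma pr_ge' (M : ℕ) : M + 2 ≤ pr M := Nat.add_two_le_nth_prime M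

lemma pr_lt' {p q : ℕ} : pr p < pr q ↔ p < q :=
  Nat.nth_lt_nth Nat.infinite_setOfPred_prime

lemma exists_idx {p M : ℕ} (hp : p.Prime) (h : p < pr M) : ∃ i : Fin M, pr i = p := by
  have h3 : pr (Nat.count Nat.Prime p) < pr M := by
    unfold pr
    rw [Nat.nth_count hp]
    exact h
  exact ⟨⟨Nat.count Nat.Prime p, pr_lt'.1 h3⟩, Nat.nth_count hp⟩

lemma prod_ek {m k : ℕ} (hk : k ≠ 0) (hkm : k < pr m) : ∏ i : Fin m, pr i ^ ek m k i = k := by
  classical
  have h1 := Nat.prod_factorization_pow_eq_self hk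
  conv_rhs => rw [← h1]
  rw [Finsupp.prod_of_support_subset k.factorization
    (s := Finset.univ.image fun i : Fin m => pr i) ?_ _ (by simp)]
  · rw [Finset.prod_image fun a _ b _ h => Fin.ext (pr_inj h)]
    rfl
  · intro p hp
    rw [Nat.support_factorization] at hp
    have h2 := Nat.prime_of_mem_primeFactors hp
    have h3 := Nat.le_of_mem_primeFactors hp
    obtain ⟨i, hi⟩ := exists_idx h2 (lt_of_le_of_lt h3 hkm)
    exact Finset.mem_image.2 ⟨i, Finset.mem_univ _, hi⟩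

lemma ek_inj {m k k' : ℕ} (hk : k ≠ 0) (hkm : k < pr m) (hk' : k' ≠ 0) (hkm' : k' < pr m)
    (h : ek m k = ek m k') : k = k' := by
  rw [← prod_ek hk hkm, ← prod_ek hk' hkm', h]

lemma ek_one (m : ℕ) : ek m 1 = 0 := by
  funext i
  unfold ek
  rw [Nat.factorization_one]
  rfl

lemma ek_le {m k : ℕ} (hk : k ≠ 0) (i : Fin m) : ek m k i ≤ k :=
  (Nat.factorization_lt (pr i) hk).le

variable {n : ℕ → ℕ}

/-- the size function -/
noncomputable def Ln (n : ℕ → ℕ) : ℕ → ℝ := fun t => (n t : ℝ)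

lemma tLn (hn : ∀ t, t ≤ n t) : Tendsto (Ln n) atTop atTop :=
  tendsto_atTop_mono (fun t => by
    unfold Ln
    exact_mod_cast hn t) tendsto_natCast_atTop_atTop

/-- the germ of `k ^ (-n)` -/
noncomputable def kg (n : ℕ → ℕ) (k : ℕ) : GG := gm fun t => ((k : ℚ) ^ n t)⁻¹

lemma kg_eq (hn : ∀ t, t ≤ n t) {m k : ℕ} (hk : k ≠ 0) (hkm : k < pr m) :
    ∃ κ : KK (Ln n) (tLn hn), κ ≠ 0 ∧
      kg n k = (κ : GG) * ch (bs m) (tLn hn) (fun i => -(ek m k i : ℝ)) := by
  obtain ⟨κ, h0, h1⟩ := exists_const (B := bs m) (tLn hn) (fun i => -(ek m k i : ℝ))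
    (fun t i => -((n t * ek m k i : ℕ) : ℤ)) (by
      intro i ε hε
      refine Eventually.of_forall fun t => ?_
      have h2 : (((-((n t * ek m k i : ℕ) : ℤ) : ℤ)) : ℝ) - -(ek m k i : ℝ) * Ln n t = 0 := by
        unfold Ln
        push_cast
        ring
      rw [h2, abs_zero]
      unfold Ln
      positivity)
  refine ⟨κ, h0, ?_⟩
  rw [← h1]
  unfold kg
  congr 1
  funext t
  conv_lhs => rw [← prod_ek hk hkm]
  push_cast
  rw [← Finset.prod_pow, ← Finset.prod_inv_distrib]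
  refine Finset.prod_congr rfl fun i _ => ?_
  show (((pr i : ℚ) ^ ek m k i) ^ n t)⁻¹ = (pr i : ℚ) ^ (-((n t : ℤ) * (ek m k i : ℤ)))
  rw [zpow_neg, ← Nat.cast_mul, zpow_natCast, ← pow_mul, mul_comm]

end Pool.Agent.Y760.RT
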