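import Pool.Agent.TH796.AL.All
import Pool.Agent.TH147.AL_KPA

/-!
# Project RT: rational approximations to the values of Dirichlet series at large integers

Definitions and statements of the parts.
-/

set_option autoImplicit false

namespace Pool.Agent.Y760.RT

open Filter Topology Pool.Agent.TH932.Abs Pool.Agent.TH932.Germs Pool.Agent.TH932.Chi
open Pool.Agent.TH796.AL

variable {m : ℕ} (B : Base m) {L : ℕ → ℝ} (hL : Tendsto L atTop atTop)

/-- evaluation of polynomials with negligible coefficients at the characters of the primes -/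
noncomputable def phi : MvPolynomial (Fin m) (KK L hL) →+* GG :=
  MvPolynomial.eval₂Hom (algebraMap (KK L hL) GG) (fun i => ch B hL (Pi.single i 1))

/-- RT-AD: adapted bases of a space of functions on a finite set with real labels -/
def AdStmt : Prop :=
  ∀ (K : Type) [Field K] (G : Type) [Fintype G] (W : Submodule K (G → K)) (val : G → ℝ),
    ∃ (z : Fin (Module.finrank K W) → (G → K)) (τ : Fin (Module.finrank K W) → G),
      LinearIndependent K z ∧ (∀ j, z j ∈ W) ∧ Function.Injective τ ∧
      ∀ j g, z j g ≠ 0 → val (τ j) ≤ val g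

/-- the polynomial with given coefficients, of degree at most `N` in every variable -/
noncomputable def pol (K : Type) [Field K] (m N : ℕ) :
    ((Fin m → Fin (N + 1)) → K) →ₗ[K] MvPolynomial (Fin m) K :=
  ∑ g : Fin m → Fin (N + 1), (MvPolynomial.monomial
    (Finsupp.equivFunOnFinite.symm fun i => (g i : ℕ))).comp (LinearMap.proj g)

/-- the elements of the ideal generated by `A` and `A'`, of degree at most `N` in every variable -/
noncomputable def WW {K : Type} [Field K] {m : ℕ} (A A' : MvPolynomial (Fin m) K) (N : ℕ) :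
    Submodule K ((Fin m → Fin (N + 1)) → K) :=
  ((Ideal.span {A, A'}).restrictScalars K).comap (pol K m N)

/-- RT-DIM: the ideal generated by two relatively prime polynomials has codimension two -/
def DimStmt : Prop :=
  ∀ (K : Type) [Field K] (m : ℕ) (A A' : MvPolynomial (Fin m) K), A ≠ 0 → A' ≠ 0 →
    IsRelPrime A A' → ∃ c : ℝ, ∀ N : ℕ,
      ((N : ℝ) + 1) ^ 2 * (((N : ℝ) + 1) ^ m - Module.finrank K (WW A A' N)) ≤
        c * ((N : ℝ) + 1) ^ m

/-- RT-FIN: a polynomial with a monomial free of the `i`-th variable is not small at the place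
`P i` -/
def FinStmt : Prop :=
  ∀ (m : ℕ) (B : Base m) (_ : ∀ i, (B.P i).Prime) (L : ℕ → ℝ) (hL : Tendsto L atTop atTop)
    (A : MvPolynomial (Fin m) (KK L hL)) (i : Fin m) (g : Fin m →₀ ℕ), A.coeff g ≠ 0 → g i = 0 →
    (phi B hL A)⁻¹ ∈ Sv B L (some i) 0

/-- RT-GCD: the common divisors of the values of relatively prime polynomials are negligible -/
def GcdStmt : Prop :=
  ∀ (m : ℕ) (B : Base m) (_ : ∀ i, (B.P i).Prime) (L : ℕ → ℝ) (hL : Tendsto L atTop atTop)
    (A A' : MvPolynomial (Fin m) (KK L hL)), A ≠ 0 → A' ≠ 0 → IsRelPrime A A' →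
    ∀ (p q : ℕ → ℤ) (D : GG), (∀ t, IsCoprime (p t) (q t)) →
      gm (fun t => (p t : ℚ)) * D = phi B hL A → gm (fun t => (q t : ℚ)) * D = phi B hL A' →
      D ∈ Sv B L none 0

end Pool.Agent.Y760.RT
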